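import Pool.Agent.MAx.Defs

/-!
# Selection principles inside a structure `(M, E)` of set theory

`E x y` is read `x ∈ y`.  All notions are relativized to the structure: all quantifiers range
over `M`, so that for a model `(M, E)` of ZFC they express that `(M, E)` satisfies the
corresponding statement of set theory.
-/

namespace Pool.Agent.OG45

open Pool.Agent.BVM (FunOn CardLE)
open Pool.Agent.MAx (OF)

section

variable {M : Type*} (E : M → M → Prop)

/-- `A ⊆ B` -/
def Sub (A B : M) : Prop := ∀ x, E x A → E x B

/-- `A` is finite: for some natural number `n`, that is, some element `n` of `w = ω`, a function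
maps a subset of `n` onto `A` -/
def Finite (w A : M) : Prop := ∃ n, E n w ∧ CardLE E A n

/-- `U` is an open subset of the set of reals `X` with its subspace topology: `U ⊆ X`, and for
each `x` in `U` there are reals `a < x < b` such that all `y` in `X` with `a < y < b` are in `U` -/
def OpenIn (K : OF M) (X U : M) : Prop := Sub E U X ∧ ∀ x, E x U →
  ∃ a b, BVM.Rel E K.lt a x ∧ BVM.Rel E K.lt x b ∧
    ∀ y, E y X → BVM.Rel E K.lt a y → BVM.Rel E K.lt y b → E y U

/-- `C` is in `𝒪`: it is an open cover of `X`, a family of open subsets of `X` whose union is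
`X` -/
def OpenCover (K : OF M) (X C : M) : Prop :=
  (∀ U, E U C → OpenIn E K X U) ∧ ∀ x, E x X → ∃ U, E U C ∧ E x U

/-- `C` is in `Ω`: it is an open `ω`-cover of `X`, an open cover of which `X` is not a member,
such that every finite subset of `X` is contained in a member -/
def OmegaCover (w : M) (K : OF M) (X C : M) : Prop :=
  OpenCover E K X C ∧ ¬ E X C ∧ ∀ A, Sub E A X → Finite E w A → ∃ U, E U C ∧ Sub E A U

/-- `C` is in `𝒪^{ωgp}`: it is an `ω`-groupable open cover of `X`.  This means that there is a
function `f` on `w = ω` whose values are finite and pairwise disjoint sets with union `C`, such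
that every finite subset `A` of `X` is contained in the union of the members of one of these
values -/
def Groupable (w : M) (K : OF M) (X C : M) : Prop :=
  OpenCover E K X C ∧ ∃ f, FunOn E f w ∧
    (∀ n g, BVM.Rel E f n g → Finite E w g) ∧
    (∀ m n g h U, BVM.Rel E f m g → BVM.Rel E f n h → E U g → E U h → m = n) ∧
    (∀ U, E U C ↔ ∃ n g, BVM.Rel E f n g ∧ E U g) ∧
    ∀ A, Sub E A X → Finite E w A →
      ∃ n g, BVM.Rel E f n g ∧ ∀ x, E x A → ∃ U, E U g ∧ E x U

/-- the selection principle `S₁(𝔄, 𝔅)`: for every sequence `s` of members of `𝔄` (a function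
on `w = ω`) there is a sequence `t` with `t(n) ∈ s(n)` for all `n`, whose set of values
`c = {t(n) : n ∈ ω}` is a member of `𝔅` -/
def SOne (w : M) (𝔄 𝔅 : M → Prop) : Prop :=
  ∀ s, FunOn E s w → (∀ n C, BVM.Rel E s n C → 𝔄 C) →
    ∃ t, FunOn E t w ∧ (∀ n C U, BVM.Rel E s n C → BVM.Rel E t n U → E U C) ∧
      ∃ c, (∀ U, E U c ↔ ∃ n, BVM.Rel E t n U) ∧ 𝔅 c

end

end Pool.Agent.OG45
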