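import Pool.Agent.OG45.Rep

/-!
# The field of real numbers in the quotient models
-/

namespace Pool.Agent.OG45

open Classical Pool.Agent Pool.Agent.LadderTree Pool.Agent.Forcing Pool.Agent.MAx
open Pool.Agent.BVM (BSet UF eqv memv chk Congr le_of_uf Disc OPair FunOn op)

/-- every type has a family of names which are never equal -/
theorem exists_disc (B : Type) [CompleteBooleanAlgebra B] (X : Type) :
    ∃ x : X → BSet B, Disc x := by
  obtain ⟨e⟩ : Nonempty (X ≃ (Cardinal.mk X).ord.ToType) := by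
    rw [← Cardinal.eq, Cardinal.mk_ord_toType]
  exact ⟨fun a => BVM.on (e a), BVM.disc_on.comp e.injective⟩

section

variable {B : Type} [CompleteBooleanAlgebra B] {b : B}

/-- names of real numbers -/
noncomputable def rn (r : ℝ) : BSet B := (exists_disc B ℝ).choose r

theorem disc_rn : Disc (rn : ℝ → BSet B) := (exists_disc B ℝ).choose_spec

/-- names of pairs of real numbers -/
noncomputable def pn (p : ℝ × ℝ) : BSet B := op (rn p.1) (rn p.2)

theorem disc_pn : Disc (pn : ℝ × ℝ → BSet B) := disc_rn.op disc_rn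

/-- the name of the field of real numbers -/
noncomputable def KR (B : Type) [CompleteBooleanAlgebra B] : OF (BSet B) where
  R := chk rn
  add := fnN pn fun p => rn (p.1 + p.2)
  mul := fnN pn fun p => rn (p.1 * p.2)
  lt := chk fun p : {p : ℝ × ℝ // p.1 < p.2} => pn p.1
  zero := rn 0
  one := rn 1

theorem nm_rn {F : Pt b} {x y : ℝ} : nm F (rn x) = nm F (rn y) ↔ x = y :=
  ⟨fun h => disc_rn.eq (nm_eq.1 h), fun h => h ▸ rfl⟩

theorem all_chk {X : Type} {x : X → BSet B} {A : ∀ F : Pt b, Md F → Prop}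
    (hA : ∀ y, RpP fun F => A F (nm F y)) (h : ∀ F a, A F (nm F (x a))) (F : Pt b)
    (y : Md F) (hy : In F y (nm F (chk x))) : A F y :=
  chk_all x (RpP.const True) hA (fun F _ a => h F a) F trivial y hy

theorem rn_mem (r : ℝ) (F : Pt b) : In F (nm F (rn r)) (nm F (KR B).R) := In_chk rn r F

theorem rel2_fn {f : ℝ × ℝ → ℝ} {F : Pt b} {x y : ℝ} {z : Md F} :
    Rel2 (In F) (nm F (fnN pn fun p => rn (f p))) (nm F (rn x)) (nm F (rn y)) z ↔
      z = nm F (rn (f (x, y))) := by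
  unfold Rel2
  constructor
  · rintro ⟨p, hp, hz⟩
    rw [OPair_nm] at hp
    rw [hp] at hz
    exact (rel_fnN disc_pn F (x, y) z).1 hz
  · rintro rfl
    exact ⟨_, OPair_nm.2 rfl, (rel_fnN disc_pn F (x, y) _).2 rfl⟩

theorem rel_add {F : Pt b} {x y : ℝ} {z : Md F} :
    Rel2 (In F) (nm F (KR B).add) (nm F (rn x)) (nm F (rn y)) z ↔ z = nm F (rn (x + y)) :=
  rel2_fn (f := fun p => p.1 + p.2)

theorem rel_mul {F : Pt b} {x y : ℝ} {z : Md F} :
    Rel2 (In F) (nm F (KR B).mul) (nm F (rn x)) (nm F (rn y)) z ↔ z = nm F (rn (x * y)) :=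
  rel2_fn (f := fun p => p.1 * p.2)

theorem rel_lt {F : Pt b} {x y : ℝ} :
    BVM.Rel (In F) (nm F (KR B).lt) (nm F (rn x)) (nm F (rn y)) ↔ x < y := by
  refine BVM.Rel_mk.trans ?_
  show F.1.U (memv (pn (x, y)) (chk fun p : {p : ℝ × ℝ // p.1 < p.2} => pn p.1)) ↔ _
  rw [BVM.memv_chk]
  have h : ∀ p : {p : ℝ × ℝ // p.1 < p.2}, eqv (pn (x, y)) (pn p.1 : BSet B) =
      tv ((x, y) = p.1) := fun p => disc_pn _ _
  simp only [h, BVM.tv_iSup]
  rw [F.1.tv_iff]
  constructor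
  · rintro ⟨p, hp⟩
    have := p.2
    rw [← hp] at this
    exact this
  · exact fun h => ⟨⟨(x, y), h⟩, rfl⟩

theorem lt_dom {F : Pt b} {x y : Md F} (h : BVM.Rel (In F) (nm F (KR B).lt) x y) :
    In F x (nm F (KR B).R) ∧ In F y (nm F (KR B).R) := by
  obtain ⟨x, rfl⟩ := exists_nm x
  obtain ⟨y, rfl⟩ := exists_nm y
  have h1 := BVM.Rel_mk.1 h
  have h2 : F.1.U (memv (op x y) (chk fun p : {p : ℝ × ℝ // p.1 < p.2} => pn p.1)) := h1
  rw [BVM.memv_chk] at h2
  rw [In_nm, In_nm]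
  show F.1.U (memv x (chk rn)) ∧ F.1.U (memv y (chk rn))
  rw [BVM.memv_chk, BVM.memv_chk]
  constructor
  · refine F.1.mono (iSup_le fun p => le_iSup_of_le p.1.1 ?_) h2
    show eqv (op x y) (op (rn p.1.1) (rn p.1.2)) ≤ _
    rw [BVM.eqv_op]
    exact inf_le_left
  · refine F.1.mono (iSup_le fun p => le_iSup_of_le p.1.2 ?_) h2
    show eqv (op x y) (op (rn p.1.1) (rn p.1.2)) ≤ _
    rw [BVM.eqv_op]
    exact inf_le_right

theorem isProd_pn (F : Pt b) : IsProd (In F) (nm F (chk pn)) (nm F (chk rn)) (nm F (chk rn)) := by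
  have e : prodN (chk rn) (chk rn) = (chk pn : BSet B) := by
    show BSet.mk (ℝ × ℝ) _ _ = BSet.mk (ℝ × ℝ) _ _
    congr 1
    funext s
    exact inf_idem _
  intro p
  rw [← e, In_prodN]

theorem fn2_fn (f : ℝ × ℝ → ℝ) (F : Pt b) :
    Fn2 (In F) (nm F (fnN pn fun p => rn (f p))) (nm F (chk rn)) (nm F (chk rn))
      (nm F (chk rn)) := by
  refine ⟨_, isProd_pn F, funOn_fnN disc_pn F, fun x y hxy => ?_⟩
  obtain ⟨x, rfl⟩ := exists_nm x
  obtain ⟨y, rfl⟩ := exists_nm y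
  have h := (BVM.relN_dom (F := F.1) (nm := (pn : ℝ × ℝ → BSet B))
    (nm' := fun p => rn (f p)) (R := fun a a' => tv (a = a')) hxy).2
  have h2 : F.1.U (memv y (chk fun p => rn (f p))) := h
  show F.1.U (memv y (chk rn))
  rw [BVM.memv_chk] at h2 ⊢
  exact F.1.mono (iSup_le fun p => le_iSup_of_le (f p) le_rfl) h2

/-- reduction of a statement about real numbers to real numbers of the ground model -/
theorem all_real {A : ∀ F : Pt b, Md F → Prop} (hA : ∀ y, RpP fun F => A F (nm F y))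
    (h : ∀ F a, A F (nm F (rn a))) (F : Pt b) (y : Md F)
    (hy : In F y (nm F (KR B).R)) : A F y := all_chk hA h F y hy

end

end Pool.Agent.OG45
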