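import Pool.Agent.OG45.Pos

/-!
# The negative half
-/

namespace Pool.Agent.OG45

open Classical Set MeasureTheory
open Pool.Agent Pool.Agent.LadderTree Pool.Agent.Forcing Pool.Agent.MAx
open Pool.Agent.BVM (BSet UF eqv memv chk Congr le_of_uf Disc OPair FunOn op on onT)

/-- all sums of two elements -/
def sums (O : Set ℝ) : Set ℝ := {r | ∃ a ∈ O, ∃ b ∈ O, a + b = r}

/-- small open neighbourhoods of finite sets -/
theorem exists_small (G : Finset ℝ) {ε : ENNReal} (hε : 0 < ε) (hε1 : ε ≤ 1) :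
    ∃ O : Set ℝ, IsOpen O ∧ (↑G : Set ℝ) ⊆ O ∧ volume (sums O) < ε := by
  have hlt : ε < ⊤ := hε1.trans_lt ENNReal.one_lt_top
  obtain ⟨δ, hδ0, hδ⟩ : ∃ δ : ℝ, 0 < δ ∧ ENNReal.ofReal δ < ε := by
    have h1 : 0 < ε.toReal := ENNReal.toReal_pos hε.ne' hlt.ne
    refine ⟨ε.toReal / 2, by linarith, ?_⟩
    rw [ENNReal.ofReal_lt_iff_lt_toReal (by linarith) hlt.ne]
    linarith
  set N : ℝ := ((G.card : ℝ) ^ 2) + 1 with hN
  have hN0 : 0 < N := by positivity
  set r : ℝ := δ / (4 * N) with hr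
  have hr0 : 0 < r := by positivity
  refine ⟨⋃ p ∈ G, Metric.ball p r, isOpen_biUnion fun _ _ => Metric.isOpen_ball, ?_, ?_⟩
  · intro p hp
    simp only [Set.mem_iUnion, exists_prop]
    exact ⟨p, hp, Metric.mem_ball_self hr0⟩
  · have hsub : sums (⋃ p ∈ G, Metric.ball p r) ⊆
        ⋃ q ∈ G ×ˢ G, Metric.ball (q.1 + q.2) (2 * r) := by
      rintro _ ⟨a, ha, b, hb, rfl⟩
      simp only [Set.mem_iUnion, exists_prop] at ha hb
      obtain ⟨p, hp, hap⟩ := ha
      obtain ⟨q, hq, hbq⟩ := hb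
      simp only [Set.mem_iUnion, exists_prop]
      refine ⟨(p, q), Finset.mem_product.2 ⟨hp, hq⟩, ?_⟩
      rw [Metric.mem_ball, Real.dist_eq] at *
      calc |a + b - (p + q)| = |(a - p) + (b - q)| := by ring_nf
        _ ≤ |a - p| + |b - q| := abs_add_le _ _
        _ < 2 * r := by linarith
    calc volume (sums (⋃ p ∈ G, Metric.ball p r))
        ≤ volume (⋃ q ∈ G ×ˢ G, Metric.ball (q.1 + q.2) (2 * r)) := measure_mono hsub
      _ ≤ ∑ q ∈ G ×ˢ G, volume (Metric.ball (q.1 + q.2) (2 * r)) :=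
          measure_biUnion_finset_le _ _
      _ = ∑ q ∈ G ×ˢ G, ENNReal.ofReal (4 * r) := by
          apply Finset.sum_congr rfl; intro q _
          rw [Real.volume_ball]; congr 1; ring
      _ = ENNReal.ofReal ((G.card : ℝ) ^ 2 * (4 * r)) := by
          rw [Finset.sum_const, Finset.card_product, nsmul_eq_mul,
            ENNReal.ofReal_mul (q := 4 * r) (by positivity : (0 : ℝ) ≤ (G.card : ℝ) ^ 2),
            ← Nat.cast_pow, ENNReal.ofReal_natCast, sq]
      _ ≤ ENNReal.ofReal δ := by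
          apply ENNReal.ofReal_le_ofReal
          have h1 : 4 * r = δ / N := by rw [hr]; field_simp
          rw [h1, mul_div_assoc', div_le_iff₀ hN0]
          nlinarith [hδ0.le]
      _ < ε := hδ

/-- the family of the small open sets -/
abbrev Sm (ε : ENNReal) : Type := {O : Set ℝ // IsOpen O ∧ volume (sums O) < ε}

/-- the name of the family of traces of small open sets -/
noncomputable def smN (ε : ENNReal) : BSet (RO Cond) := chk fun O : Sm ε => trN O.1

/-- a point of the unit interval outside a set of small measure -/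
theorem exists_out {S : Set ℝ} (h : volume S < 1) : ∃ z ∈ Icc (0 : ℝ) 1, z ∉ S := by
  by_contra hcon
  push Not at hcon
  have h1 : (1 : ENNReal) ≤ volume S := by
    calc (1 : ENNReal) = volume (Set.Icc (0 : ℝ) 1) := by
          rw [Real.volume_Icc]; simp
      _ ≤ _ := measure_mono hcon
  exact absurd (h1.trans_lt h) (lt_irrefl _)

/-- the families of small open sets are `ω`-covers -/
theorem omega_smN {ε : ENNReal} (hε : 0 < ε) (hε1 : ε ≤ 1) (F : GG Cond) :
    OmegaCover (In F) (nm F (onT ℕ)) (nmK F (KR (RO Cond))) (nm F XN) (nm F (smN ε)) := by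
  refine ⟨⟨fun u hu => ?_, fun x hx => ?_⟩, fun hX => ?_, ?_⟩
  · exact all_chk (b := (⊤ : RO Cond)) (x := fun O : Sm ε => trN O.1) (A := fun F u =>
      OpenIn (In F) (nmK F (KR (RO Cond))) (nm F XN) u) (fun u => rpOpenIn _ _ u)
      (fun F O => openIn_tr O.2.1 F) F u hu
  · refine all_sN (A := fun F x => ∃ u, In F u (nm F (smN ε)) ∧ In F x u)
      (fun x => RpP.ex fun u => (RpP.mem u _).and (RpP.mem x u)) (fun F d hd => ?_) hx
    obtain ⟨O, hO, hdO, hO'⟩ := exists_small {d} hε hε1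
    exact ⟨nm F (trN O), In_chk (fun O : Sm ε => trN O.1) ⟨O, hO, hO'⟩ F,
      rn_trN.2 ⟨hd, hdO (by simp)⟩⟩
  · refine all_chk (b := (⊤ : RO Cond)) (x := fun O : Sm ε => trN O.1) (A := fun F u =>
      u ≠ nm F XN) (fun u => (RpP.eq u XN).not) (fun F O => ?_) F _ hX rfl
    refine gg_not (RpP.eq (trN O.1) XN) (fun q hq => ?_) F
    obtain ⟨z, hz, hzO⟩ := exists_out (O.2.2.trans_le hε1)
    obtain ⟨r, hr, x, hx, hx'⟩ := q.exists_pair hz
    obtain ⟨F, hF⟩ := exists_gg r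
    have e : nm F (trN O.1) = nm F XN := hq.mono hr F hF
    have key : ∀ y ∈ r.A, y ∈ O.1 := by
      intro y hy
      have h1 : In F (nm F (rn y)) (nm F XN) := rn_XN.2 (gg_gen hy hF)
      rw [← e, rn_trN] at h1
      exact h1.2
    exact hzO ⟨x, key x hx, z - x, key _ hx', by ring⟩
  · have hRp : ∀ a : BSet (RO Cond), RpP fun F : GG Cond => ∃ u, In F u (nm F (smN ε)) ∧
        Sub (In F) (nm F a) u := fun a => RpP.ex fun u => (RpP.mem u _).and (rpSub a u)
    have key : ∀ F : GG Cond, ∀ a, (Sub (In F) a (nm F XN) ∧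
        OG45.Finite (In F) (nm F (onT ℕ)) a) → ∃ u, In F u (nm F (smN ε)) ∧ Sub (In F) a u := by
      intro F a
      obtain ⟨a, rfl⟩ := exists_nm a
      refine gg_imp ((rpSub a XN).and (rpFinite _ a)) (hRp a) (fun q ha => ?_) F
      refine Fc.dense (hRp a) fun r1 hr1 => ?_
      obtain ⟨r2, hr2, G, hGA, hGa⟩ := exists_finite (a := a) (q := r1)
        (fun F hF => (ha.mono hr1 F hF).1) (fun F hF => (ha.mono hr1 F hF).2)
      obtain ⟨O, hO, hGO, hO'⟩ := exists_small G hε hε1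
      refine ⟨r2, hr2, fun F hF => ⟨nm F (trN O),
        In_chk (fun O : Sm ε => trN O.1) ⟨O, hO, hO'⟩ F, fun x hx => ?_⟩⟩
      exact fc_chk (q := r2) (A := fun F x => In F x (nm F (trN O)))
        (fun x => RpP.mem x _) (fun F hF g => rn_trN.2 ⟨gg_gen (hGA g.2) hF, hGO g.2⟩) hF
        (hGa F hF x hx)
    exact fun a h1 h2 => key F a ⟨h1, h2⟩

/-- the generic set does not satisfy `S₁(Ω, Ω)` -/
theorem sOne_neg (F : GG Cond) : ¬ SOne (In F) (nm F (onT ℕ))
    (OmegaCover (In F) (nm F (onT ℕ)) (nmK F (KR (RO Cond))) (nm F XN))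
    (OmegaCover (In F) (nm F (onT ℕ)) (nmK F (KR (RO Cond))) (nm F XN)) := by
  obtain ⟨ε, hε, hsum⟩ := ENNReal.exists_pos_sum_of_countable' (one_ne_zero (α := ENNReal)) ℕ
  have hε1 : ∀ n, ε n ≤ 1 := fun n => ((ENNReal.le_tsum n).trans_lt hsum).le
  set s : BSet (RO Cond) := seqN fun n => smN (ε n) with hs
  intro hS
  have h1 := hS (nm F s) (funOn_seqN _ F) (fun n C hC => by
    obtain ⟨q, hq⟩ : ∃ q : Cond, True := ⟨cond0, trivial⟩
    have hn := dom_of (funOn_seqN _ F) hC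
    refine all_chk (b := (⊤ : RO Cond)) (x := on) (A := fun F n => ∀ C,
      BVM.Rel (In F) (nm F s) n C → OmegaCover (In F) (nm F (onT ℕ))
        (nmK F (KR (RO Cond))) (nm F XN) C)
      (fun n => RpP.all fun C => (RpP.rel s n C).imp (rpOmegaCover _ _ _ C))
      (fun F n C hC => ?_) F n hn C hC
    rw [hs, rel_seqN] at hC
    rw [hC]
    exact omega_smN (hε n) (hε1 n) F)
  have hB := rpCon (b := (⊤ : RO Cond)) (onT ℕ) s (𝔅 := fun F => OmegaCover (In F)
    (nm F (onT ℕ)) (nmK F (KR (RO Cond))) (nm F XN)) (fun y => rpOmegaCover _ _ _ y)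
  refine gg_not hB (fun q hq => ?_) F h1
  -- names of the selection and of its range
  have hRp1 : ∀ t : BSet (RO Cond), RpP fun F : GG Cond => FunOn (In F) (nm F t) (nm F (onT ℕ)) ∧
      (∀ n C U, BVM.Rel (In F) (nm F s) n C → BVM.Rel (In F) (nm F t) n U → In F U C) ∧
      ∃ c, (∀ U, In F U c ↔ ∃ n, BVM.Rel (In F) (nm F t) n U) ∧ OmegaCover (In F)
        (nm F (onT ℕ)) (nmK F (KR (RO Cond))) (nm F XN) c := fun t =>
    (RpP.funOn t _).and ((RpP.all fun n => RpP.all fun C => RpP.all fun U =>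
      (RpP.rel s n C).imp ((RpP.rel t n U).imp (RpP.mem U C))).and (RpP.ex fun c =>
      (RpP.all fun U => (RpP.mem U c).iff (RpP.ex fun n => RpP.rel t n U)).and
        (rpOmegaCover _ _ _ c)))
  obtain ⟨t, ht⟩ := Fc.name (q := q) (A := fun F t => FunOn (In F) t (nm F (onT ℕ)) ∧
      (∀ n C U, BVM.Rel (In F) (nm F s) n C → BVM.Rel (In F) t n U → In F U C) ∧
      ∃ c, (∀ U, In F U c ↔ ∃ n, BVM.Rel (In F) t n U) ∧ OmegaCover (In F)
        (nm F (onT ℕ)) (nmK F (KR (RO Cond))) (nm F XN) c) hRp1 hq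
  obtain ⟨c, hc⟩ := Fc.name (q := q) (A := fun F c => (∀ U, In F U c ↔
      ∃ n, BVM.Rel (In F) (nm F t) n U) ∧ OmegaCover (In F)
        (nm F (onT ℕ)) (nmK F (KR (RO Cond))) (nm F XN) c)
    (fun c => (RpP.all fun U => (RpP.mem U c).iff (RpP.ex fun n => RpP.rel t n U)).and
        (rpOmegaCover _ _ _ c)) (fun F hF => (ht F hF).2.2)
  have hU : ∀ n : ℕ, ∃ U : BSet (RO Cond), Fc q fun F =>
      BVM.Rel (In F) (nm F t) (nm F (on n)) (nm F U) := by
    intro n
    refine Fc.name (A := fun F U => BVM.Rel (In F) (nm F t) (nm F (on n)) U)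
      (fun U => RpP.rel t _ U) fun F hF => ?_
    obtain ⟨y, hy, -⟩ := (ht F hF).1.2 (nm F (on n)) (BVM.E_onT n F.1)
    exact ⟨y, hy⟩
  choose U hU using hU
  -- the selected sets are decided
  obtain ⟨q1, hq1, hΦ⟩ := fuse sigma_cond (p := q)
    (Φ := fun n r => ∃ O : Sm (ε n), Fc r fun F => nm F (U n) = nm F (trN O.1))
    (fun n r r' hr ⟨O, h⟩ => ⟨O, h.mono hr⟩)
    (fun n r hr => Fc.chk (x := fun O : Sm (ε n) => trN O.1) (y := U n) (q := r)
      (fun F hF => (ht.mono hr F hF).2.1 _ _ _ (rel_seqN.2 rfl) ((hU n).mono hr F hF)))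
  choose O hO using hΦ
  -- a point outside
  obtain ⟨z, hz, hzO⟩ := exists_out (S := ⋃ n, sums (O n).1) (by
    calc volume (⋃ n, sums (O n).1) ≤ ∑' n, volume (sums (O n).1) := measure_iUnion_le _
      _ ≤ ∑' n, ε n := ENNReal.tsum_le_tsum fun n => (O n).2.2.le
      _ < 1 := hsum)
  obtain ⟨q2, hq2, x, hx, hx'⟩ := q1.exists_pair hz
  have hq2q : q2 ≤ q := hq2.trans hq1
  have hGA : (↑({x, z - x} : Finset ℝ) : Set ℝ) ⊆ q2.A := by
    rw [Finset.coe_insert, Finset.coe_singleton]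
    rintro y (rfl | rfl)
    · exact hx
    · exact hx'
  -- a member which contains both points
  have h2 : Fc q2 fun F => ∃ n, In F n (nm F (onT ℕ)) ∧ ∃ u,
      BVM.Rel (In F) (nm F t) n u ∧ Sub (In F) (nm F (fN {x, z - x})) u := by
    intro F hF
    obtain ⟨u, hu, hu'⟩ := (hc.mono hq2q F hF).2.2.2 _ (fN_sub hGA F hF) (finite_chk _ F)
    obtain ⟨n, hn⟩ := ((hc.mono hq2q F hF).1 u).1 hu
    exact ⟨n, dom_of (ht.mono hq2q F hF).1 hn, u, hn, hu'⟩
  obtain ⟨n, hn⟩ := Fc.name (q := q2) (A := fun F n => In F n (nm F (onT ℕ)) ∧ ∃ u,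
      BVM.Rel (In F) (nm F t) n u ∧ Sub (In F) (nm F (fN {x, z - x})) u)
    (fun n => (RpP.mem n _).and (RpP.ex fun u => (RpP.rel t n u).and (rpSub _ u))) h2
  obtain ⟨q3, hq3, m, hm⟩ := Fc.chk (x := on) (y := n) (q := q2) (fun F hF => (hn F hF).1)
  obtain ⟨F, hF⟩ := exists_gg q3
  have hF2 : F.1.U (pt q2) := F.1.mono (pt_mono hq3) hF
  have hFq : F.1.U (pt q) := F.1.mono (pt_mono hq2q) hF2
  obtain ⟨u, hu, hu'⟩ := (hn F hF2).2
  have e : nm F n = nm F (on m) := hm F hF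
  rw [e] at hu
  obtain ⟨y, _, hy⟩ := (ht F hFq).1.2 (nm F (on m)) (BVM.E_onT m F.1)
  have e1 : u = nm F (U m) := (hy u hu).trans (hy _ (hU m F hFq)).symm
  have e2 : nm F (U m) = nm F (trN (O m).1) := (hO m).mono hq2 F hF2
  rw [e2] at e1
  have key : ∀ y ∈ ({x, z - x} : Finset ℝ), y ∈ (O m).1 := by
    intro y hy
    have h3 := hu' _ (rn_fN.2 hy)
    rw [e1, rn_trN] at h3
    exact h3.2
  apply hzO
  rw [mem_iUnion]
  exact ⟨m, x, key x (by simp), z - x, key _ (by simp), by ring⟩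

end Pool.Agent.OG45
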