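import Pool.Agent.OG45.Stage

/-!
# The positive half
-/

namespace Pool.Agent.OG45

open Classical Set Pool.Agent Pool.Agent.LadderTree Pool.Agent.Forcing Pool.Agent.MAx
open Pool.Agent.BVM (BSet UF eqv memv chk Congr le_of_uf Disc OPair FunOn op on onT)

section

variable {P : Type} [Preorder P]

theorem disc_nat : Disc (on : ℕ → BSet (RO P)) := BVM.disc_on

/-- the name of a sequence -/
noncomputable def seqN (y : ℕ → BSet (RO P)) : BSet (RO P) := fnN on y

theorem funOn_seqN (y : ℕ → BSet (RO P)) (F : GG P) :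
    FunOn (In F) (nm F (seqN y)) (nm F (onT ℕ)) := funOn_fnN disc_nat F

theorem rel_seqN {y : ℕ → BSet (RO P)} {F : GG P} {n : ℕ} {z : Md F} :
    BVM.Rel (In F) (nm F (seqN y)) (nm F (on n)) z ↔ z = nm F (y n) := rel_fnN disc_nat F n z

/-- arguments of a function are in its domain -/
theorem dom_of {F : GG P} {f d x y : Md F} (h : FunOn (In F) f d)
    (hxy : BVM.Rel (In F) f x y) : In F x d := by
  obtain ⟨z, hz, hzf⟩ := hxy
  obtain ⟨x', y', hx', hz'⟩ := h.1 z hzf
  rw [(hz.inj hz').1]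
  exact hx'

/-- a statement about all values of a named sequence -/
theorem fc_seq {y : ℕ → BSet (RO P)} {q : P} {A : ∀ F : GG P, Md F → Md F → Prop}
    (hA : ∀ n z, RpP fun F => A F (nm F n) (nm F z))
    (h : ∀ F : GG P, F.1.U (pt q) → ∀ n, A F (nm F (on n)) (nm F (y n))) {F : GG P}
    (hF : F.1.U (pt q)) {n z : Md F} (hz : BVM.Rel (In F) (nm F (seqN y)) n z) : A F n z := by
  have hn := dom_of (funOn_seqN y F) hz
  refine fc_chk (q := q) (A := fun F n => ∀ z, BVM.Rel (In F) (nm F (seqN y)) n z → A F n z)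
    (fun n => RpP.all fun z => (RpP.rel _ n z).imp (hA n z)) (fun F hF n z hz => ?_) hF hn z hz
  rw [rel_seqN] at hz
  rw [hz]
  exact h F hF n

/-- the range of a named sequence -/
theorem range_seqN (y : ℕ → BSet (RO P)) (F : GG P) (u : Md F) :
    In F u (nm F (chk y)) ↔ ∃ n, BVM.Rel (In F) (nm F (seqN y)) n u := by
  constructor
  · intro hu
    exact all_chk (b := (⊤ : RO P)) (A := fun F u => ∃ n, BVM.Rel (In F) (nm F (seqN y)) n u)
      (fun u => RpP.ex fun n => RpP.rel _ n u) (fun F n => ⟨nm F (on n), rel_seqN.2 rfl⟩) F u hu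
  · rintro ⟨n, hn⟩
    have hn' := dom_of (funOn_seqN y F) hn
    refine all_chk (b := (⊤ : RO P)) (x := on) (A := fun F n => ∀ u,
      BVM.Rel (In F) (nm F (seqN y)) n u → In F u (nm F (chk y)))
      (fun n => RpP.all fun u => (RpP.rel _ n u).imp (RpP.mem u _)) (fun F n u h => ?_) F n hn' u hn
    rw [rel_seqN] at h
    rw [h]
    exact In_chk y n F

end

/-- the name of the `k`-th group -/
noncomputable def grp (W : ℕ → Bool → Set ℝ) (k : ℕ) : BSet (RO Cond) :=
  chk fun i : Bool => trN (W k i)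

/-- the sequence of open sets -/
noncomputable def wsq (W : ℕ → Bool → Set ℝ) (n : ℕ) : BSet (RO Cond) :=
  trN (W (n / 2) (decide (n % 2 = 1)))

theorem in_grp {W : ℕ → Bool → Set ℝ} {k : ℕ} {F : GG Cond} {u : Md F} :
    In F u (nm F (grp W k)) ↔ ∃ i, u = nm F (trN (W k i)) := by
  constructor
  · intro h
    obtain ⟨u, rfl⟩ := exists_nm u
    rw [In_nm, grp, BVM.memv_chk] at h
    have h' : F.1.U (eqv u (trN (W k false)) ⊔ eqv u (trN (W k true))) := by
      refine F.1.mono (iSup_le fun i => ?_) h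
      cases i
      · exact le_sup_left
      · exact le_sup_right
    rw [F.1.sup_iff] at h'
    rcases h' with h' | h'
    · exact ⟨false, nm_eq.2 h'⟩
    · exact ⟨true, nm_eq.2 h'⟩
  · rintro ⟨i, rfl⟩
    exact In_chk (fun i : Bool => trN (W k i)) i F

theorem wsq_eq (W : ℕ → Bool → Set ℝ) (k : ℕ) (i : Bool) :
    wsq W (2 * k + cond i 1 0) = trN (W k i) := by
  unfold wsq
  cases i
  · have h1 : (2 * k + cond false 1 0) / 2 = k := by simp
    have h2 : decide ((2 * k + cond false 1 0) % 2 = 1) = false := by simp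
    rw [h1, h2]
  · have h1 : (2 * k + cond true 1 0) / 2 = k := by simp; omega
    have h2 : decide ((2 * k + cond true 1 0) % 2 = 1) = true := by simp
    rw [h1, h2]

/-- the selection is `ω`-groupable -/
theorem groupable {q : Cond} {W : ℕ → Bool → Set ℝ} (hW : ∀ k i, IsOpen (W k i))
    (hne : ∀ j k, j ≠ k → ∀ i i', ∃ d ∈ q.A, ¬ (d ∈ W j i ↔ d ∈ W k i'))
    (hG : ∀ r ≤ q, ∀ G : Finset ℝ, (↑G : Set ℝ) ⊆ r.A → ∃ k, ∀ x ∈ G, ∃ i, x ∈ W k i) :
    Fc q fun F => Groupable (In F) (nm F (onT ℕ)) (nmK F (KR (RO Cond))) (nm F XN)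
      (nm F (chk (wsq W))) := by
  intro F hF
  refine ⟨⟨fun u hu => ?_, fun x hx => ?_⟩, nm F (seqN (grp W)), funOn_seqN _ F, ?_, ?_, ?_, ?_⟩
  · exact all_chk (b := (⊤ : RO Cond)) (x := wsq W) (A := fun F u => OpenIn (In F)
      (nmK F (KR (RO Cond))) (nm F XN) u) (fun u => rpOpenIn _ _ u)
      (fun F n => openIn_tr (hW _ _) F) F u hu
  · refine fc_sN (q := q) (A := fun F x => ∃ u, In F u (nm F (chk (wsq W))) ∧ In F x u)
      (fun x => RpP.ex fun u => (RpP.mem u _).and (RpP.mem x u)) (fun F hF d hd => ?_) hF hx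
    obtain ⟨r, hr, hdr⟩ := exists_gen hF hd
    obtain ⟨k, hk⟩ := hG r hr {d} (by
      rw [Finset.coe_singleton, singleton_subset_iff]
      exact hdr)
    obtain ⟨i, hi⟩ := hk d (Finset.mem_singleton_self d)
    refine ⟨nm F (wsq W (2 * k + cond i 1 0)), In_chk _ _ F, ?_⟩
    rw [wsq_eq]
    exact rn_trN.2 ⟨hd, hi⟩
  · intro n g hng
    exact fc_seq (q := q) (A := fun F _ g => OG45.Finite (In F) (nm F (onT ℕ)) g)
      (fun _ g => rpFinite _ g) (fun F _ n => finite_chk _ F) hF hng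
  · intro m n g h u hm hn hg hh
    refine fc_seq (q := q) (A := fun F m g => ∀ n h u, BVM.Rel (In F) (nm F (seqN (grp W))) n h →
      In F u g → In F u h → m = n)
      (fun m g => RpP.all fun n => RpP.all fun h => RpP.all fun u => (RpP.rel _ n h).imp
        ((RpP.mem u g).imp ((RpP.mem u h).imp (RpP.eq m n)))) (fun F hF m n h u hn hg hh => ?_)
      hF hm n h u hn hg hh
    refine fc_seq (q := q) (A := fun F n h => ∀ u, In F u (nm F (grp W m)) →
      In F u h → nm F (on m) = n)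
      (fun n h => RpP.all fun u => (RpP.mem u _).imp ((RpP.mem u h).imp (RpP.eq _ n)))
      (fun F hF n u hg hh => ?_) hF hn u hg hh
    obtain ⟨i, rfl⟩ := in_grp.1 hg
    obtain ⟨i', hi'⟩ := in_grp.1 hh
    by_contra hmn
    have hmn' : m ≠ n := by
      rintro rfl
      exact hmn rfl
    obtain ⟨d, hd, hd'⟩ := hne m n hmn' i i'
    apply hd'
    have e : ∀ V : Set ℝ, In F (nm F (rn d)) (nm F (trN V)) ↔ d ∈ V := fun V =>
      rn_trN.trans ⟨fun h => h.2, fun h => ⟨gg_gen hd hF, h⟩⟩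
    rw [← e, ← e, hi']
  · intro u
    constructor
    · intro hu
      refine all_chk (b := (⊤ : RO Cond)) (x := wsq W) (A := fun F u => ∃ n g,
        BVM.Rel (In F) (nm F (seqN (grp W))) n g ∧ In F u g)
        (fun u => RpP.ex fun n => RpP.ex fun g => (RpP.rel _ n g).and (RpP.mem u g))
        (fun F n => ?_) F u hu
      exact ⟨nm F (on (n / 2)), nm F (grp W (n / 2)), rel_seqN.2 rfl, in_grp.2 ⟨_, rfl⟩⟩
    · rintro ⟨n, g, hng, hu⟩
      refine fc_seq (q := q) (A := fun F _ g => ∀ u, In F u g → In F u (nm F (chk (wsq W))))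
        (fun _ g => RpP.all fun u => (RpP.mem u g).imp (RpP.mem u _)) (fun F _ n u hu => ?_)
        hF hng u hu
      obtain ⟨i, rfl⟩ := in_grp.1 hu
      rw [← wsq_eq W n i]
      exact In_chk _ _ F
  · -- finite sets
    have hRp : ∀ a : BSet (RO Cond), RpP fun F : GG Cond => ∃ n g,
        BVM.Rel (In F) (nm F (seqN (grp W))) n g ∧ ∀ x, In F x (nm F a) →
          ∃ u, In F u g ∧ In F x u := fun a =>
      RpP.ex fun n => RpP.ex fun g => (RpP.rel _ n g).and (RpP.all fun x =>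
        (RpP.mem x a).imp (RpP.ex fun u => (RpP.mem u g).and (RpP.mem x u)))
    have key : Fc q fun F => ∀ a, (Sub (In F) a (nm F XN) ∧
        OG45.Finite (In F) (nm F (onT ℕ)) a) → ∃ n g,
        BVM.Rel (In F) (nm F (seqN (grp W))) n g ∧ ∀ x, In F x a →
          ∃ u, In F u g ∧ In F x u := by
      refine Fc.all fun a => Fc.imp ((rpSub a XN).and (rpFinite _ a)) (hRp a) fun r hr ha => ?_
      refine Fc.dense (hRp a) fun r1 hr1 => ?_
      obtain ⟨r2, hr2, G, hGA, hGa⟩ := exists_finite (a := a) (q := r1)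
        (fun F hF => (ha.mono hr1 F hF).1) (fun F hF => (ha.mono hr1 F hF).2)
      obtain ⟨k, hk⟩ := hG r2 (hr2.trans (hr1.trans hr)) G hGA
      refine ⟨r2, hr2, fun F hF => ⟨nm F (on k), nm F (grp W k), rel_seqN.2 rfl,
        fun x hx => ?_⟩⟩
      refine fc_chk (q := r2) (A := fun F x => ∃ u, In F u (nm F (grp W k)) ∧ In F x u)
        (fun x => RpP.ex fun u => (RpP.mem u _).and (RpP.mem x u)) (fun F hF g => ?_) hF
        (hGa F hF x hx)
      obtain ⟨i, hi⟩ := hk g.1 g.2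
      exact ⟨nm F (trN (W k i)), in_grp.2 ⟨i, rfl⟩, rn_trN.2 ⟨gg_gen (hGA g.2) hF, hi⟩⟩
    exact fun a h1 h2 => key F hF a ⟨h1, h2⟩

/-- the generic set satisfies `S₁(Ω, 𝒪^{ωgp})` -/
theorem sOne_pos (F : GG Cond) : SOne (In F) (nm F (onT ℕ))
    (OmegaCover (In F) (nm F (onT ℕ)) (nmK F (KR (RO Cond))) (nm F XN))
    (Groupable (In F) (nm F (onT ℕ)) (nmK F (KR (RO Cond))) (nm F XN)) := by
  intro s hs1 hs2
  obtain ⟨s, rfl⟩ := exists_nm s
  have hA := rpHyp (b := (⊤ : RO Cond)) (onT ℕ) s (𝔄 := fun F => OmegaCover (In F)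
    (nm F (onT ℕ)) (nmK F (KR (RO Cond))) (nm F XN)) (fun y => rpOmegaCover _ _ _ y)
  have hB := rpCon (b := (⊤ : RO Cond)) (onT ℕ) s (𝔅 := fun F => Groupable (In F)
    (nm F (onT ℕ)) (nmK F (KR (RO Cond))) (nm F XN)) (fun y => rpGroupable _ _ _ y)
  refine gg_imp hA hB (fun q hq => Fc.dense hB fun p hp => ?_) F ⟨hs1, hs2⟩
  replace hq := hq.mono hp
  -- names of the covers
  have hU : ∀ n : ℕ, ∃ U : BSet (RO Cond), Fc p fun F =>
      BVM.Rel (In F) (nm F s) (nm F (on n)) (nm F U) := by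
    intro n
    refine Fc.name (A := fun F U => BVM.Rel (In F) (nm F s) (nm F (on n)) U)
      (fun U => RpP.rel s _ U) fun F hF => ?_
    obtain ⟨y, hy, -⟩ := (hq F hF).1.2 (nm F (on n)) (BVM.E_onT n F.1)
    exact ⟨y, hy⟩
  choose U hU using hU
  have hUO : ∀ n, FOm p (U n) := fun n F hF => (hq F hF).2 _ _ (hU n F hF)
  obtain ⟨q', hq', W, hW, h0, h1, hne, hG⟩ := exists_selection hUO
  refine ⟨q', hq', fun F hF => ⟨nm F (seqN (wsq W)), funOn_seqN _ F, fun n C u hC hu => ?_,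
    nm F (chk (wsq W)), range_seqN (wsq W) F, groupable hW hne hG F hF⟩⟩
  refine fc_seq (q := q') (A := fun F n u => ∀ C, BVM.Rel (In F) (nm F s) n C → In F u C)
    (fun n u => RpP.all fun C => (RpP.rel s n C).imp (RpP.mem u C)) (fun F hF n C hC => ?_)
    hF hu C hC
  obtain ⟨y, _, hy⟩ := (hq.mono hq' F hF).1.2 (nm F (on n)) (BVM.E_onT n F.1)
  have e : C = nm F (U n) := (hy C hC).trans (hy _ ((hU n).mono hq' F hF)).symm
  rw [e]
  rcases Nat.even_or_odd' n with ⟨k, rfl | rfl⟩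
  · have := h0 k F hF
    have e1 := wsq_eq W k false
    simp only [cond_false, add_zero] at e1
    rw [e1]
    exact this
  · have := h1 k F hF
    have e1 := wsq_eq W k true
    simp only [cond_true] at e1
    rw [e1]
    exact this

end Pool.Agent.OG45
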