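import Pool.Agent.OG45.Reals
import Pool.Agent.H43.Omega2

/-!
# The forcing notion

A condition is a countable set `A` of reals together with countably many promises `(V, C)`:
`V` is a sequence of open sets such that each finite subset of `A ∖ C` is contained in infinitely
many `V k`.
-/

namespace Pool.Agent.OG45

open Set

/-- the density property: for all `w` in `[0, 1]` the points `y` with `y ∈ V` and `w - y ∈ V` are
`1 / (k + 1)`-dense in `[-k, k]` -/
def Dns (k : ℕ) (V : Set ℝ) : Prop := ∀ w ∈ Icc (0 : ℝ) 1, ∀ y₀ : ℝ, |y₀| ≤ k →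
  ∃ y : ℝ, |y - y₀| < 1 / ((k : ℝ) + 1) ∧ y ∈ V ∧ w - y ∈ V

/-- conditions -/
structure Cond where
  /-- the points -/
  A : Set ℝ
  /-- the promises -/
  S : Set ((ℕ → Set ℝ) × Set ℝ)
  hA : A.Countable
  hQ : ∀ q : ℚ, (q : ℝ) ∈ A
  hS : S.Countable
  op : ∀ s ∈ S, ∀ k, IsOpen (s.1 k)
  dn : ∀ s ∈ S, ∀ k, Dns k (s.1 k)
  kept : ∀ s ∈ S, ∀ F : Finset ℝ, (↑F : Set ℝ) ⊆ A \ s.2 → ∀ N, ∃ k, N ≤ k ∧ (↑F : Set ℝ) ⊆ s.1 k

instance : Preorder Cond where
  le q p := p.A ⊆ q.A ∧ p.S ⊆ q.S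
  le_refl p := ⟨subset_rfl, subset_rfl⟩
  le_trans p q r h1 h2 := ⟨h2.1.trans h1.1, h2.2.trans h1.2⟩

theorem Cond.le_iff {p q : Cond} : q ≤ p ↔ p.A ⊆ q.A ∧ p.S ⊆ q.S := Iff.rfl

/-- the limit of a descending sequence -/
def limC (p : ℕ → Cond) (h : ∀ m n, m ≤ n → p n ≤ p m) : Cond where
  A := ⋃ n, (p n).A
  S := ⋃ n, (p n).S
  hA := countable_iUnion fun n => (p n).hA
  hQ := fun q => mem_iUnion.2 ⟨0, (p 0).hQ q⟩
  hS := countable_iUnion fun n => (p n).hS
  op := by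
    intro s hs
    obtain ⟨n, hn⟩ := mem_iUnion.1 hs
    exact (p n).op s hn
  dn := by
    intro s hs
    obtain ⟨n, hn⟩ := mem_iUnion.1 hs
    exact (p n).dn s hn
  kept := by
    intro s hs F hF N
    obtain ⟨n, hn⟩ := mem_iUnion.1 hs
    have key : ∀ G : Finset ℝ, (↑G : Set ℝ) ⊆ (⋃ n, (p n).A) \ s.2 →
        ∃ m, n ≤ m ∧ (↑G : Set ℝ) ⊆ (p m).A \ s.2 := by
      intro G
      induction G using Finset.induction_on with
      | empty => intro _; exact ⟨n, le_rfl, by simp⟩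
      | insert x G _ ih =>
        intro hG
        rw [Finset.coe_insert, insert_subset_iff] at hG
        obtain ⟨m, hm, hGm⟩ := ih hG.2
        obtain ⟨m', hm'⟩ := mem_iUnion.1 hG.1.1
        refine ⟨max m m', hm.trans (le_max_left _ _), ?_⟩
        rw [Finset.coe_insert, insert_subset_iff]
        exact ⟨⟨(h _ _ (le_max_right m m')).1 hm', hG.1.2⟩,
          fun y hy => ⟨(h _ _ (le_max_left m m')).1 (hGm hy).1, (hGm hy).2⟩⟩
    obtain ⟨m, hm, hFm⟩ := key F hF
    exact (p m).kept s ((h n m hm).2 hn) F hFm N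

theorem limC_le (p : ℕ → Cond) (h : ∀ m n, m ≤ n → p n ≤ p m) (n : ℕ) : limC p h ≤ p n :=
  ⟨fun _ hx => mem_iUnion.2 ⟨n, hx⟩, fun _ hx => mem_iUnion.2 ⟨n, hx⟩⟩

theorem antitone_of_step {p : ℕ → Cond} (h : ∀ n, p (n + 1) ≤ p n) :
    ∀ m n, m ≤ n → p n ≤ p m := by
  intro m n hmn
  induction n, hmn using Nat.le_induction with
  | base => exact le_rfl
  | succ n _ ih => exact (h n).trans ih

theorem sigma_cond : SigmaClosed Cond := fun p hp =>
  ⟨limC p (antitone_of_step hp), limC_le p _⟩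

/-- adding a promise -/
def Cond.addPromise (p : Cond) (V : ℕ → Set ℝ) (ho : ∀ k, IsOpen (V k))
    (hd : ∀ k, Dns k (V k)) : Cond where
  A := p.A
  S := insert (V, p.A) p.S
  hA := p.hA
  hQ := p.hQ
  hS := p.hS.insert _
  op := by
    rintro s (rfl | hs)
    · exact ho
    · exact p.op s hs
  dn := by
    rintro s (rfl | hs)
    · exact hd
    · exact p.dn s hs
  kept := by
    rintro s (rfl | hs) F hF N
    · refine ⟨N, le_rfl, fun x hx => ?_⟩
      exact absurd (hF hx).1 (hF hx).2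
    · exact p.kept s hs F hF N

theorem Cond.addPromise_le (p : Cond) (V : ℕ → Set ℝ) (ho : ∀ k, IsOpen (V k))
    (hd : ∀ k, Dns k (V k)) : p.addPromise V ho hd ≤ p :=
  ⟨subset_rfl, subset_insert _ _⟩

/-- adding a pair of points with given sum -/
theorem Cond.exists_pair (p : Cond) {w : ℝ} (hw : w ∈ Icc (0 : ℝ) 1) :
    ∃ q ≤ p, ∃ x, x ∈ q.A ∧ w - x ∈ q.A := by
  classical
  -- the dense open sets
  let T : Type := p.S × {F : Finset ℝ // (↑F : Set ℝ) ⊆ p.A} × ℕ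
  have hT : Countable T := by
    have h1 : Countable p.S := p.hS.to_subtype
    have h2 : Countable {F : Finset ℝ // (↑F : Set ℝ) ⊆ p.A} := by
      have h3 : Countable p.A := p.hA.to_subtype
      let g : Finset p.A → {F : Finset ℝ // (↑F : Set ℝ) ⊆ p.A} := fun G =>
        ⟨G.map (Function.Embedding.subtype _), by
          intro x hx
          rw [Finset.coe_map] at hx
          obtain ⟨y, _, rfl⟩ := hx
          exact y.2⟩
      have hg : Function.Surjective g := by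
        rintro ⟨F, hF⟩
        classical
        refine ⟨F.subtype (· ∈ p.A), Subtype.ext ?_⟩
        show (F.subtype (· ∈ p.A)).map (Function.Embedding.subtype _) = F
        rw [Finset.subtype_map]
        exact Finset.filter_true_of_mem fun x hx => hF hx
      exact hg.countable
    infer_instance
  let O : T → Set ℝ := fun t => if (↑t.2.1.1 : Set ℝ) ⊆ p.A \ t.1.1.2 then
    {y | ∃ k, t.2.2 ≤ k ∧ (↑t.2.1.1 : Set ℝ) ⊆ t.1.1.1 k ∧ y ∈ t.1.1.1 k ∧ w - y ∈ t.1.1.1 k}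
    else univ
  have hOo : ∀ t, IsOpen (O t) := by
    intro t
    simp only [O]
    split_ifs
    · have : {y | ∃ k, t.2.2 ≤ k ∧ (↑t.2.1.1 : Set ℝ) ⊆ t.1.1.1 k ∧ y ∈ t.1.1.1 k ∧
          w - y ∈ t.1.1.1 k} = ⋃ (k : ℕ) (_ : t.2.2 ≤ k ∧ (↑t.2.1.1 : Set ℝ) ⊆ t.1.1.1 k),
            (t.1.1.1 k ∩ (fun y => w - y) ⁻¹' t.1.1.1 k) := by
        ext y
        simp only [mem_ofPred_eq, mem_iUnion, mem_inter_iff, mem_preimage, exists_prop]
        constructor
        · rintro ⟨k, h1, h2, h3, h4⟩; exact ⟨k, ⟨h1, h2⟩, h3, h4⟩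
        · rintro ⟨k, ⟨h1, h2⟩, h3, h4⟩; exact ⟨k, h1, h2, h3, h4⟩
      rw [this]
      refine isOpen_iUnion fun k => isOpen_iUnion fun _ =>
        (p.op t.1.1 t.1.2 k).inter ((p.op t.1.1 t.1.2 k).preimage ?_)
      fun_prop
    · exact isOpen_univ
  have hOd : ∀ t, Dense (O t) := by
    intro t
    simp only [O]
    split_ifs with hF
    · rw [Metric.dense_iff]
      intro y₀ r hr
      obtain ⟨M, hM⟩ := exists_nat_one_div_lt hr
      obtain ⟨k, hk, hkF⟩ := p.kept t.1.1 t.1.2 t.2.1.1 hF (max t.2.2 (max M ⌈|y₀|⌉₊))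
      have hk1 : t.2.2 ≤ k := (le_max_left _ _).trans hk
      have hk2 : M ≤ k := ((le_max_left _ _).trans (le_max_right _ _)).trans hk
      have hk3 : ⌈|y₀|⌉₊ ≤ k := ((le_max_right _ _).trans (le_max_right _ _)).trans hk
      have hy : |y₀| ≤ k := (Nat.le_ceil _).trans (by exact_mod_cast hk3)
      obtain ⟨y, hy1, hy2, hy3⟩ := p.dn t.1.1 t.1.2 k w hw y₀ hy
      refine ⟨y, ?_, k, hk1, hkF, hy2, hy3⟩
      rw [Metric.mem_ball, Real.dist_eq]
      have h4 : 1 / ((k : ℝ) + 1) ≤ 1 / ((M : ℝ) + 1) := by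
        apply one_div_le_one_div_of_le (by positivity)
        have : (M : ℝ) ≤ k := by exact_mod_cast hk2
        linarith
      linarith
    · exact dense_univ
  obtain ⟨x, hx⟩ := (dense_iInter_of_isOpen hOo hOd).nonempty
  rw [mem_iInter] at hx
  classical
  refine ⟨⟨p.A ∪ {x, w - x}, p.S, p.hA.union (Set.toFinite _).countable,
    fun q => Or.inl (p.hQ q), p.hS, p.op, p.dn, ?_⟩, ⟨subset_union_left, subset_rfl⟩, x,
    Or.inr (Or.inl rfl), Or.inr (Or.inr rfl)⟩
  intro s hs F hF N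
  have hF' : (↑(F.filter (· ∈ p.A)) : Set ℝ) ⊆ p.A \ s.2 := by
    intro y hy
    rw [Finset.coe_filter] at hy
    exact ⟨hy.2, (hF hy.1).2⟩
  have h1 := hx (⟨s, hs⟩, ⟨F.filter (· ∈ p.A), fun y hy => (hF' hy).1⟩, N)
  simp only [O] at h1
  rw [if_pos hF'] at h1
  obtain ⟨k, hk, h2, h3, h4⟩ := h1
  refine ⟨k, hk, fun y hy => ?_⟩
  by_cases hyA : y ∈ p.A
  · exact h2 (by rw [Finset.coe_filter]; exact ⟨hy, hyA⟩)
  · rcases (hF hy).1 with h | h | h
    · exact absurd h hyA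
    · rw [h]; exact h3
    · rw [h]; exact h4

/-- a condition without promises -/
def cond0 : Cond where
  A := Set.range fun q : ℚ => (q : ℝ)
  S := ∅
  hA := countable_range _
  hQ := fun q => ⟨q, rfl⟩
  hS := countable_empty
  op := fun _ h => absurd h (notMem_empty _)
  dn := fun _ h => absurd h (notMem_empty _)
  kept := fun _ h => absurd h (notMem_empty _)

end Pool.Agent.OG45
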