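import Pool.Agent.OG45.Field

/-!
# The field of real numbers of a forcing extension without new sequences
-/

namespace Pool.Agent.OG45

open Classical Pool.Agent Pool.Agent.LadderTree Pool.Agent.Forcing Pool.Agent.MAx
open Pool.Agent.BVM (BSet UF eqv memv chk Congr le_of_uf Disc OPair FunOn op)

section

variable {B : Type} [CompleteBooleanAlgebra B] {b : B}

theorem dom_add {F : Pt b} {x y s : Md F} (h : Rel2 (In F) (nm F (KR B).add) x y s) :
    In F x (nm F (KR B).R) ∧ In F y (nm F (KR B).R) ∧ In F s (nm F (KR B).R) :=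
  (fn2_fn (fun p => p.1 + p.2) F).dom h

theorem dom_mul {F : Pt b} {x y s : Md F} (h : Rel2 (In F) (nm F (KR B).mul) x y s) :
    In F x (nm F (KR B).R) ∧ In F y (nm F (KR B).R) ∧ In F s (nm F (KR B).R) :=
  (fn2_fn (fun p => p.1 * p.2) F).dom h

theorem f_add_comm (F : Pt b) (x y s : Md F) (h : Rel2 (In F) (nm F (KR B).add) x y s) :
    Rel2 (In F) (nm F (KR B).add) y x s := by
  obtain ⟨hx, hy, -⟩ := dom_add h
  revert y s
  refine all_real (b := b) (A := fun F x => ∀ y s, Rel2 (In F) (nm F (KR B).add) x y s →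
    In F y (nm F (KR B).R) → Rel2 (In F) (nm F (KR B).add) y x s)
    (fun _ => RpP.all fun _ => RpP.all fun _ => (RpP.rel2 _ _ _ _).imp ((RpP.mem _ _).imp
      (RpP.rel2 _ _ _ _))) (fun F c y s h hy => ?_) F x hx
  revert s
  refine all_real (b := b) (A := fun F y => ∀ s, Rel2 (In F) (nm F (KR B).add) (nm F (rn c)) y s →
    Rel2 (In F) (nm F (KR B).add) y (nm F (rn c)) s)
    (fun _ => RpP.all fun _ => (RpP.rel2 _ _ _ _).imp (RpP.rel2 _ _ _ _))
    (fun F d s h => ?_) F y hy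
  rw [rel_add] at h ⊢
  rw [h, add_comm]

theorem f_mul_comm (F : Pt b) (x y s : Md F) (h : Rel2 (In F) (nm F (KR B).mul) x y s) :
    Rel2 (In F) (nm F (KR B).mul) y x s := by
  obtain ⟨hx, hy, -⟩ := dom_mul h
  revert y s
  refine all_real (b := b) (A := fun F x => ∀ y s, Rel2 (In F) (nm F (KR B).mul) x y s →
    In F y (nm F (KR B).R) → Rel2 (In F) (nm F (KR B).mul) y x s)
    (fun _ => RpP.all fun _ => RpP.all fun _ => (RpP.rel2 _ _ _ _).imp ((RpP.mem _ _).imp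
      (RpP.rel2 _ _ _ _))) (fun F c y s h hy => ?_) F x hx
  revert s
  refine all_real (b := b) (A := fun F y => ∀ s, Rel2 (In F) (nm F (KR B).mul) (nm F (rn c)) y s →
    Rel2 (In F) (nm F (KR B).mul) y (nm F (rn c)) s)
    (fun _ => RpP.all fun _ => (RpP.rel2 _ _ _ _).imp (RpP.rel2 _ _ _ _))
    (fun F d s h => ?_) F y hy
  rw [rel_mul] at h ⊢
  rw [h, mul_comm]

/-- a statement about three real numbers -/
theorem all_real3 {A : ∀ F : Pt b, Md F → Md F → Md F → Prop}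
    (hA : ∀ x y z, RpP fun F => A F (nm F x) (nm F y) (nm F z))
    (h : ∀ F c d e, A F (nm F (rn c)) (nm F (rn d)) (nm F (rn e))) (F : Pt b)
    (x y z : Md F) (hx : In F x (nm F (KR B).R)) (hy : In F y (nm F (KR B).R))
    (hz : In F z (nm F (KR B).R)) : A F x y z := by
  refine all_real (b := b) (A := fun F x => ∀ y, In F y (nm F (KR B).R) → ∀ z,
    In F z (nm F (KR B).R) → A F x y z)
    (fun _ => RpP.all fun _ => (RpP.mem _ _).imp (RpP.all fun _ => (RpP.mem _ _).imp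
      (hA _ _ _))) (fun F c => ?_) F x hx y hy z hz
  refine all_real (b := b) (A := fun F y => ∀ z, In F z (nm F (KR B).R) →
    A F (nm F (rn c)) y z) (fun _ => RpP.all fun _ => (RpP.mem _ _).imp (hA _ _ _))
    (fun F d => ?_) F
  exact all_real (b := b) (A := fun F z => A F (nm F (rn c)) (nm F (rn d)) z)
    (fun _ => hA _ _ _) (fun F e => h F c d e) F

theorem f_add_assoc (F : Pt b) (x y u s t r : Md F)
    (h1 : Rel2 (In F) (nm F (KR B).add) x y s) (h2 : Rel2 (In F) (nm F (KR B).add) s u r)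
    (h3 : Rel2 (In F) (nm F (KR B).add) y u t) : Rel2 (In F) (nm F (KR B).add) x t r := by
  refine all_real3 (b := b) (A := fun F x y u => ∀ s t r,
    Rel2 (In F) (nm F (KR B).add) x y s → Rel2 (In F) (nm F (KR B).add) s u r →
    Rel2 (In F) (nm F (KR B).add) y u t → Rel2 (In F) (nm F (KR B).add) x t r)
    (fun _ _ _ => RpP.all fun _ => RpP.all fun _ => RpP.all fun _ => (RpP.rel2 _ _ _ _).imp
      ((RpP.rel2 _ _ _ _).imp ((RpP.rel2 _ _ _ _).imp (RpP.rel2 _ _ _ _))))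
    (fun F c d e s t r h1 h2 h3 => ?_) F x y u (dom_add h1).1 (dom_add h3).1 (dom_add h3).2.1
    s t r h1 h2 h3
  rw [rel_add] at h1 h3
  subst h1 h3
  rw [rel_add] at h2 ⊢
  rw [h2, add_assoc]

theorem f_mul_assoc (F : Pt b) (x y u s t r : Md F)
    (h1 : Rel2 (In F) (nm F (KR B).mul) x y s) (h2 : Rel2 (In F) (nm F (KR B).mul) s u r)
    (h3 : Rel2 (In F) (nm F (KR B).mul) y u t) : Rel2 (In F) (nm F (KR B).mul) x t r := by
  refine all_real3 (b := b) (A := fun F x y u => ∀ s t r,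
    Rel2 (In F) (nm F (KR B).mul) x y s → Rel2 (In F) (nm F (KR B).mul) s u r →
    Rel2 (In F) (nm F (KR B).mul) y u t → Rel2 (In F) (nm F (KR B).mul) x t r)
    (fun _ _ _ => RpP.all fun _ => RpP.all fun _ => RpP.all fun _ => (RpP.rel2 _ _ _ _).imp
      ((RpP.rel2 _ _ _ _).imp ((RpP.rel2 _ _ _ _).imp (RpP.rel2 _ _ _ _))))
    (fun F c d e s t r h1 h2 h3 => ?_) F x y u (dom_mul h1).1 (dom_mul h3).1 (dom_mul h3).2.1
    s t r h1 h2 h3
  rw [rel_mul] at h1 h3
  subst h1 h3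
  rw [rel_mul] at h2 ⊢
  rw [h2, mul_assoc]

theorem f_distrib (F : Pt b) (x y u s r p q : Md F)
    (h1 : Rel2 (In F) (nm F (KR B).add) y u s) (h2 : Rel2 (In F) (nm F (KR B).mul) x s r)
    (h3 : Rel2 (In F) (nm F (KR B).mul) x y p) (h4 : Rel2 (In F) (nm F (KR B).mul) x u q) :
    Rel2 (In F) (nm F (KR B).add) p q r := by
  refine all_real3 (b := b) (A := fun F x y u => ∀ s r p q,
    Rel2 (In F) (nm F (KR B).add) y u s → Rel2 (In F) (nm F (KR B).mul) x s r →
    Rel2 (In F) (nm F (KR B).mul) x y p → Rel2 (In F) (nm F (KR B).mul) x u q →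
    Rel2 (In F) (nm F (KR B).add) p q r)
    (fun _ _ _ => RpP.all fun _ => RpP.all fun _ => RpP.all fun _ => RpP.all fun _ =>
      (RpP.rel2 _ _ _ _).imp ((RpP.rel2 _ _ _ _).imp ((RpP.rel2 _ _ _ _).imp
        ((RpP.rel2 _ _ _ _).imp (RpP.rel2 _ _ _ _)))))
    (fun F c d e s r p q h1 h2 h3 h4 => ?_) F x y u (dom_mul h3).1 (dom_mul h3).2.1
    (dom_mul h4).2.1 s r p q h1 h2 h3 h4
  rw [rel_add] at h1
  rw [rel_mul] at h3 h4
  subst h1 h3 h4
  rw [rel_mul] at h2
  rw [rel_add, h2, mul_add]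

theorem f_trans (F : Pt b) (x y u : Md F) (h1 : BVM.Rel (In F) (nm F (KR B).lt) x y)
    (h2 : BVM.Rel (In F) (nm F (KR B).lt) y u) : BVM.Rel (In F) (nm F (KR B).lt) x u := by
  refine all_real3 (b := b) (A := fun F x y u => BVM.Rel (In F) (nm F (KR B).lt) x y →
    BVM.Rel (In F) (nm F (KR B).lt) y u → BVM.Rel (In F) (nm F (KR B).lt) x u)
    (fun _ _ _ => (RpP.rel _ _ _).imp ((RpP.rel _ _ _).imp (RpP.rel _ _ _)))
    (fun F c d e h1 h2 => ?_) F x y u (lt_dom h1).1 (lt_dom h1).2 (lt_dom h2).2 h1 h2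
  rw [rel_lt] at h1 h2 ⊢
  exact h1.trans h2

theorem f_irrefl (F : Pt b) (x : Md F) : ¬ BVM.Rel (In F) (nm F (KR B).lt) x x := by
  intro h
  refine all_real (b := b) (A := fun F x => ¬ BVM.Rel (In F) (nm F (KR B).lt) x x)
    (fun _ => (RpP.rel _ _ _).not) (fun F c h => ?_) F x (lt_dom h).1 h
  rw [rel_lt] at h
  exact lt_irrefl _ h

theorem f_tri (F : Pt b) (x y : Md F) (hx : In F x (nm F (KR B).R))
    (hy : In F y (nm F (KR B).R)) : BVM.Rel (In F) (nm F (KR B).lt) x y ∨ x = y ∨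
      BVM.Rel (In F) (nm F (KR B).lt) y x := by
  refine all_real3 (b := b) (A := fun F x y _ => BVM.Rel (In F) (nm F (KR B).lt) x y ∨ x = y ∨
      BVM.Rel (In F) (nm F (KR B).lt) y x)
    (fun _ _ _ => (RpP.rel _ _ _).or ((RpP.eq _ _).or (RpP.rel _ _ _)))
    (fun F c d e => ?_) F x y x hx hy hx
  rw [rel_lt, rel_lt, nm_rn]
  exact lt_trichotomy c d

theorem f_add_lt (F : Pt b) (x y u s t : Md F) (h1 : BVM.Rel (In F) (nm F (KR B).lt) x y)
    (h2 : Rel2 (In F) (nm F (KR B).add) x u s) (h3 : Rel2 (In F) (nm F (KR B).add) y u t) :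
    BVM.Rel (In F) (nm F (KR B).lt) s t := by
  refine all_real3 (b := b) (A := fun F x y u => ∀ s t, BVM.Rel (In F) (nm F (KR B).lt) x y →
    Rel2 (In F) (nm F (KR B).add) x u s → Rel2 (In F) (nm F (KR B).add) y u t →
    BVM.Rel (In F) (nm F (KR B).lt) s t)
    (fun _ _ _ => RpP.all fun _ => RpP.all fun _ => (RpP.rel _ _ _).imp
      ((RpP.rel2 _ _ _ _).imp ((RpP.rel2 _ _ _ _).imp (RpP.rel _ _ _))))
    (fun F c d e s t h1 h2 h3 => ?_) F x y u (lt_dom h1).1 (lt_dom h1).2 (dom_add h2).2.1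
    s t h1 h2 h3
  rw [rel_add] at h2 h3
  subst h2 h3
  rw [rel_lt] at h1 ⊢
  linarith

theorem f_mul_pos (F : Pt b) (x y s : Md F)
    (h1 : BVM.Rel (In F) (nm F (KR B).lt) (nm F (KR B).zero) x)
    (h2 : BVM.Rel (In F) (nm F (KR B).lt) (nm F (KR B).zero) y)
    (h3 : Rel2 (In F) (nm F (KR B).mul) x y s) :
    BVM.Rel (In F) (nm F (KR B).lt) (nm F (KR B).zero) s := by
  refine all_real3 (b := b) (A := fun F x y _ => ∀ s,
    BVM.Rel (In F) (nm F (KR B).lt) (nm F (KR B).zero) x →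
    BVM.Rel (In F) (nm F (KR B).lt) (nm F (KR B).zero) y →
    Rel2 (In F) (nm F (KR B).mul) x y s →
    BVM.Rel (In F) (nm F (KR B).lt) (nm F (KR B).zero) s)
    (fun _ _ _ => RpP.all fun _ => (RpP.rel _ _ _).imp
      ((RpP.rel _ _ _).imp ((RpP.rel2 _ _ _ _).imp (RpP.rel _ _ _))))
    (fun F c d e s h1 h2 h3 => ?_) F x y x (lt_dom h1).2 (lt_dom h2).2 (lt_dom h1).2
    s h1 h2 h3
  rw [rel_mul] at h3
  subst h3
  have h1' := rel_lt (B := B).1 h1
  have h2' := rel_lt (B := B).1 h2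
  exact rel_lt.2 (mul_pos h1' h2')

end

section

variable {P : Type} [Preorder P]

/-- an upper bound for `s` -/
def UB {B : Type} [CompleteBooleanAlgebra B] {b : B} (F : Pt b) (s y : Md F) : Prop :=
  In F y (nm F (KR B).R) ∧ ∀ x, In F x s → ¬ BVM.Rel (In F) (nm F (KR B).lt) y x

theorem rpUB {B : Type} [CompleteBooleanAlgebra B] {b : B} (s y : BSet B) :
    RpP fun F : Pt b => UB F (nm F s) (nm F y) :=
  (RpP.mem _ _).and (RpP.all fun _ => (RpP.mem _ _).imp (RpP.rel _ _ _).not)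

/-- least upper bounds, in an extension without new sequences -/
theorem f_sup (hσ : SigmaClosed P) (F : GG P) (s : Md F)
    (h1 : ∀ x, In F x s → In F x (nm F (KR (RO P)).R)) (h2 : ∃ x, In F x s)
    (h3 : ∃ y, UB F s y) : ∃ y, UB F s y ∧ ∀ y', In F y' (nm F (KR (RO P)).R) →
      (∀ x, In F x s → ¬ BVM.Rel (In F) (nm F (KR (RO P)).lt) y' x) →
      ¬ BVM.Rel (In F) (nm F (KR (RO P)).lt) y' y := by
  obtain ⟨s, rfl⟩ := exists_nm s
  have hA : RpP fun F : GG P => (∀ x, In F x (nm F s) → In F x (nm F (KR (RO P)).R)) ∧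
      (∃ x, In F x (nm F s)) ∧ ∃ y, UB F (nm F s) y :=
    (RpP.all fun _ => (RpP.mem _ _).imp (RpP.mem _ _)).and ((RpP.ex fun x => RpP.mem x s).and
      (RpP.ex fun y => rpUB s y))
  have hB : RpP fun F : GG P => ∃ y, UB F (nm F s) y ∧ ∀ y', In F y' (nm F (KR (RO P)).R) →
      (∀ x, In F x (nm F s) → ¬ BVM.Rel (In F) (nm F (KR (RO P)).lt) y' x) →
      ¬ BVM.Rel (In F) (nm F (KR (RO P)).lt) y' y :=
    RpP.ex fun y => (rpUB s y).and (RpP.all fun _ => (RpP.mem _ _).imp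
      ((RpP.all fun _ => (RpP.mem _ _).imp (RpP.rel _ _ _).not).imp (RpP.rel _ _ _).not))
  refine gg_imp hA hB (fun q hq => Fc.dense hB fun r hr => ?_) F ⟨h1, h2, h3⟩
  replace hq := hq.mono hr
  have hs : Fc r fun F => ∀ x, In F x (nm F s) → In F x (nm F (KR (RO P)).R) :=
    fun F hF => (hq F hF).1
  -- an element
  obtain ⟨x0, hx0⟩ := Fc.name (A := fun F x => In F x (nm F s)) (fun _ => RpP.mem _ _)
    (fun F hF => (hq F hF).2.1)
  obtain ⟨r1, hr1, a, ha⟩ := Fc.chk (x := rn) (y := x0) (q := r)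
    (fun F hF => hs F hF _ (hx0 F hF))
  -- a bound
  obtain ⟨y0, hy0⟩ := Fc.name (q := r1) (A := fun F y => UB F (nm F s) y) (fun _ => rpUB _ _)
    (fun F hF => (hq.mono hr1 F hF).2.2)
  obtain ⟨r2, hr2, c, hc⟩ := Fc.chk (x := rn) (y := y0) (q := r1)
    (fun F hF => (hy0 F hF).1)
  -- the cut
  obtain ⟨r3, hr3, T, hT⟩ := decide_all hσ r2 (ι := ℚ) (A := fun q F => ∃ x, In F x (nm F s) ∧
    BVM.Rel (In F) (nm F (KR (RO P)).lt) (nm F (rn q)) x)
    (fun q => RpP.ex fun _ => (RpP.mem _ _).and (RpP.rel _ _ _))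
  have hs3 := hs.mono (hr3.trans (hr2.trans hr1))
  -- real elements of `s`
  have hTa : ∀ q : ℚ, (q : ℝ) < a → q ∈ T := by
    intro q hqa
    obtain ⟨F, hF⟩ := exists_gg r3
    refine (hT q F hF).1 ⟨nm F x0, (hx0.mono (hr3.trans (hr2.trans hr1))) F hF, ?_⟩
    have e : nm F x0 = nm F (rn a) := (ha.mono (hr3.trans hr2)) F hF
    rw [e]
    exact rel_lt.2 hqa
  have hTc : ∀ q ∈ T, (q : ℝ) < c := by
    intro q hq
    by_contra hcon
    push Not at hcon
    obtain ⟨F, hF⟩ := exists_gg r3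
    obtain ⟨x, hx, hqx⟩ := (hT q F hF).2 hq
    have h5 := (hy0.mono (hr3.trans hr2) F hF).2 x hx
    have e : nm F y0 = nm F (rn c) := (hc.mono hr3) F hF
    rw [e] at h5
    rcases hcon.lt_or_eq with h | h
    · exact h5 (f_trans F _ _ _ (rel_lt.2 h) hqx)
    · rw [← h] at hqx
      exact h5 hqx
  set U : Set ℝ := (fun q : ℚ => (q : ℝ)) '' T with hU
  have hUne : U.Nonempty := by
    obtain ⟨q, hq⟩ := exists_rat_lt a
    exact ⟨q, q, hTa q hq, rfl⟩
  have hUb : BddAbove U := by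
    refine ⟨c, ?_⟩
    rintro _ ⟨q, hq, rfl⟩
    exact (hTc q hq).le
  refine ⟨r3, hr3.trans (hr2.trans hr1), fun F hF => ⟨nm F (rn (sSup U)), ?_⟩⟩
  revert F
  refine fun F hF => ⟨⟨rn_mem _ F, ?_⟩, ?_⟩
  · -- upper bound
    revert F
    have h6 : Fc r3 fun F => ∀ x, In F x (nm F s) →
        ¬ BVM.Rel (In F) (nm F (KR (RO P)).lt) (nm F (rn (sSup U))) x := by
      refine Fc.all fun x => Fc.imp (RpP.mem _ _) (RpP.rel _ _ _).not fun r4 hr4 hx => ?_
      refine Fc.not (RpP.rel _ _ _) fun r5 hr5 hlt => ?_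
      obtain ⟨r6, hr6, d, hd⟩ := Fc.chk (x := rn) (y := x) (q := r5)
        (fun F hF => hs3.mono (hr5.trans hr4) F hF _ (hx.mono hr5 F hF))
      obtain ⟨F, hF⟩ := exists_gg r6
      have e : nm F x = nm F (rn d) := hd F hF
      have h7 : BVM.Rel (In F) (nm F (KR (RO P)).lt) (nm F (rn (sSup U))) (nm F x) :=
        hlt.mono hr6 F hF
      rw [e] at h7
      have h8 : sSup U < d := rel_lt.1 h7
      obtain ⟨q, hq1, hq2⟩ := exists_rat_btwn h8
      have h9 : q ∈ T := by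
        refine (hT q F (F.1.mono (pt_mono (hr6.trans (hr5.trans hr4))) hF)).1
          ⟨nm F x, (hx.mono (hr6.trans hr5)) F hF, ?_⟩
        rw [e]
        exact rel_lt.2 hq2
      exact absurd (le_csSup hUb ⟨q, h9, rfl⟩) hq1.not_ge
    exact h6
  · revert F
    have h6 : Fc r3 fun F => ∀ y', In F y' (nm F (KR (RO P)).R) →
        (∀ x, In F x (nm F s) → ¬ BVM.Rel (In F) (nm F (KR (RO P)).lt) y' x) →
        ¬ BVM.Rel (In F) (nm F (KR (RO P)).lt) y' (nm F (rn (sSup U))) := by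
      intro F hF
      refine chk_all rn (RpP.val (pt r3)) (P := fun F y' =>
        (∀ x, In F x (nm F s) → ¬ BVM.Rel (In F) (nm F (KR (RO P)).lt) y' x) →
        ¬ BVM.Rel (In F) (nm F (KR (RO P)).lt) y' (nm F (rn (sSup U))))
        (fun y => (RpP.all fun _ => (RpP.mem _ _).imp (RpP.rel _ _ _).not).imp
          (RpP.rel _ _ _).not) (fun F hF d hd hlt => ?_) F hF
      have h7 : d < sSup U := rel_lt.1 hlt
      obtain ⟨_, ⟨q, hq, rfl⟩, hdq⟩ := exists_lt_of_lt_csSup hUne h7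
      obtain ⟨x, hx, hqx⟩ := (hT q F hF).2 hq
      exact hd x hx (f_trans F _ _ _ (rel_lt.2 hdq) hqx)
    exact h6

/-- the name of the field of real numbers names the field of real numbers -/
theorem isReals (hσ : SigmaClosed P) (F : GG P) : IsReals (In F) (nmK F (KR (RO P))) where
  add := fn2_fn (fun p => p.1 + p.2) F
  mul := fn2_fn (fun p => p.1 * p.2) F
  zero := rn_mem 0 F
  one := rn_mem 1 F
  ne := fun h => zero_ne_one (nm_rn.1 h)
  add_comm := f_add_comm F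
  add_assoc := f_add_assoc F
  add_zero := by
    intro x hx
    refine all_real (A := fun F x => Rel2 (In F) (nm F (KR (RO P)).add) x
      (nm F (KR (RO P)).zero) x) (fun _ => RpP.rel2 _ _ _ _) (fun F c => ?_) F x hx
    refine rel_add.2 ?_
    rw [add_zero]
  add_neg := by
    intro x hx
    refine all_real (A := fun F x => ∃ y, Rel2 (In F) (nm F (KR (RO P)).add) x y
      (nm F (KR (RO P)).zero)) (fun _ => RpP.ex fun _ => RpP.rel2 _ _ _ _) (fun F c => ?_) F x hx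
    refine ⟨nm F (rn (-c)), rel_add.2 ?_⟩
    rw [add_neg_cancel]
    rfl
  mul_comm := f_mul_comm F
  mul_assoc := f_mul_assoc F
  mul_one := by
    intro x hx
    refine all_real (A := fun F x => Rel2 (In F) (nm F (KR (RO P)).mul) x
      (nm F (KR (RO P)).one) x) (fun _ => RpP.rel2 _ _ _ _) (fun F c => ?_) F x hx
    refine rel_mul.2 ?_
    rw [mul_one]
  mul_inv := by
    intro x hx
    refine all_real (A := fun F x => x ≠ nm F (KR (RO P)).zero →
      ∃ y, Rel2 (In F) (nm F (KR (RO P)).mul) x y (nm F (KR (RO P)).one))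
      (fun _ => (RpP.eq _ _).not.imp (RpP.ex fun _ => RpP.rel2 _ _ _ _)) (fun F c hc => ?_) F x hx
    have hc' : c ≠ 0 := by
      rintro rfl
      exact hc rfl
    refine ⟨nm F (rn c⁻¹), rel_mul.2 ?_⟩
    rw [mul_inv_cancel₀ hc']
    rfl
  distrib := f_distrib F
  lt_dom := fun x y h => lt_dom h
  irrefl := f_irrefl F
  trans := f_trans F
  tri := f_tri F
  add_lt := f_add_lt F
  mul_pos := f_mul_pos F
  sup := by
    intro s h1 h2 h3
    obtain ⟨y, hy, hy'⟩ := f_sup hσ F s h1 h2 h3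
    exact ⟨y, hy, hy'⟩

end

end Pool.Agent.OG45
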