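import Pool.Agent.OG45.Defs
import Pool.Agent.OG45.Fc

/-!
# Boolean values of the notions
-/

namespace Pool.Agent.OG45

open Classical Pool.Agent Pool.Agent.LadderTree Pool.Agent.Forcing Pool.Agent.MAx
open Pool.Agent.BVM (BSet UF eqv memv chk Congr le_of_uf Disc OPair FunOn op)

section

variable {B : Type} [CompleteBooleanAlgebra B] {b : B}

theorem rpSub (x y : BSet B) : RpP fun F : Pt b => Sub (In F) (nm F x) (nm F y) := by
  unfold Sub
  exact RpP.all fun _ => (RpP.mem _ _).imp (RpP.mem _ _)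

theorem rpCardLE (x y : BSet B) : RpP fun F : Pt b => BVM.CardLE (In F) (nm F x) (nm F y) := by
  unfold BVM.CardLE
  repeat' (first
    | exact RpP.rel _ _ _ | exact RpP.mem _ _ | exact RpP.eq _ _
    | refine RpP.and ?_ ?_ | refine RpP.ex fun _ => ?_ | refine RpP.all fun _ => ?_
    | refine RpP.imp ?_ ?_)

theorem rpFinite (w x : BSet B) : RpP fun F : Pt b => OG45.Finite (In F) (nm F w) (nm F x) := by
  unfold OG45.Finite
  exact RpP.ex fun _ => (RpP.mem _ _).and (rpCardLE _ _)

theorem rpOpenIn (K : OF (BSet B)) (X U : BSet B) :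
    RpP fun F : Pt b => OpenIn (In F) (nmK F K) (nm F X) (nm F U) := by
  unfold OpenIn
  repeat' (first
    | exact RpP.rel _ _ _ | exact RpP.mem _ _ | exact RpP.eq _ _ | exact rpSub _ _
    | refine RpP.and ?_ ?_ | refine RpP.ex fun _ => ?_ | refine RpP.all fun _ => ?_
    | refine RpP.imp ?_ ?_)

theorem rpOpenCover (K : OF (BSet B)) (X C : BSet B) :
    RpP fun F : Pt b => OpenCover (In F) (nmK F K) (nm F X) (nm F C) := by
  unfold OpenCover
  repeat' (first
    | exact RpP.rel _ _ _ | exact RpP.mem _ _ | exact rpOpenIn _ _ _ | exact rpSub _ _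
    | refine RpP.and ?_ ?_ | refine RpP.ex fun _ => ?_ | refine RpP.all fun _ => ?_
    | refine RpP.imp ?_ ?_)

theorem rpOmegaCover (w : BSet B) (K : OF (BSet B)) (X C : BSet B) :
    RpP fun F : Pt b => OmegaCover (In F) (nm F w) (nmK F K) (nm F X) (nm F C) := by
  unfold OmegaCover
  repeat' (first
    | exact RpP.rel _ _ _ | exact RpP.mem _ _ | exact rpOpenCover _ _ _ | exact rpSub _ _
    | exact rpFinite _ _
    | refine RpP.and ?_ ?_ | refine RpP.ex fun _ => ?_ | refine RpP.all fun _ => ?_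
    | refine RpP.not ?_ | refine RpP.imp ?_ ?_)

theorem rpGroupable (w : BSet B) (K : OF (BSet B)) (X C : BSet B) :
    RpP fun F : Pt b => Groupable (In F) (nm F w) (nmK F K) (nm F X) (nm F C) := by
  unfold Groupable
  repeat' (first
    | exact RpP.rel _ _ _ | exact RpP.mem _ _ | exact rpOpenCover _ _ _ | exact rpSub _ _
    | exact rpFinite _ _ | exact RpP.funOn _ _ | exact RpP.eq _ _
    | refine RpP.and ?_ ?_ | refine RpP.ex fun _ => ?_ | refine RpP.all fun _ => ?_
    | refine RpP.iff ?_ ?_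
    | refine RpP.not ?_ | refine RpP.imp ?_ ?_)

/-- the hypothesis of a selection principle, for a name of a sequence -/
theorem rpHyp (w s : BSet B) {𝔄 : ∀ F : Pt b, Md F → Prop}
    (hA : ∀ y, RpP fun F => 𝔄 F (nm F y)) :
    RpP fun F : Pt b => FunOn (In F) (nm F s) (nm F w) ∧
      ∀ n C, BVM.Rel (In F) (nm F s) n C → 𝔄 F C :=
  (RpP.funOn _ _).and (RpP.all fun _ => RpP.all fun C => (RpP.rel _ _ _).imp (hA C))

/-- the conclusion of a selection principle, for a name of a sequence -/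
theorem rpCon (w s : BSet B) {𝔅 : ∀ F : Pt b, Md F → Prop}
    (hB : ∀ y, RpP fun F => 𝔅 F (nm F y)) :
    RpP fun F : Pt b => ∃ t, FunOn (In F) t (nm F w) ∧
      (∀ n C U, BVM.Rel (In F) (nm F s) n C → BVM.Rel (In F) t n U → In F U C) ∧
      ∃ c, (∀ U, In F U c ↔ ∃ n, BVM.Rel (In F) t n U) ∧ 𝔅 F c := by
  repeat' (first
    | exact hB _
    | exact RpP.rel _ _ _ | exact RpP.mem _ _ | exact RpP.funOn _ _
    | refine RpP.and ?_ ?_ | refine RpP.ex fun _ => ?_ | refine RpP.all fun _ => ?_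
    | refine RpP.iff ?_ ?_
    | refine RpP.not ?_ | refine RpP.imp ?_ ?_)

end

end Pool.Agent.OG45
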