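import Pool.Agent.OG45.Trace

/-!
# Choosing members of `ω`-covers in general position
-/

namespace Pool.Agent.OG45

open Classical Set Pool.Agent Pool.Agent.LadderTree Pool.Agent.Forcing Pool.Agent.MAx
open Pool.Agent.BVM (BSet UF eqv memv chk Congr le_of_uf Disc OPair FunOn op on onT)

/-- the condition `q` forces that `u` is an `ω`-cover of the generic set -/
def FOm (q : Cond) (u : BSet (RO Cond)) : Prop := Fc q fun F =>
  OmegaCover (In F) (nm F (onT ℕ)) (nmK F (KR (RO Cond))) (nm F XN) (nm F u)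

/-- the condition `q` forces that the trace of `W` is an element of `u` -/
def FMem (q : Cond) (W : Set ℝ) (u : BSet (RO Cond)) : Prop :=
  Fc q fun F => In F (nm F (trN W)) (nm F u)

/-- a set of reals which contains all points of extensions has full trace -/
theorem tr_full {W : Set ℝ} {q : Cond} (h : ∀ r ≤ q, ∀ s ∈ r.A, s ∈ W) :
    Fc q fun F => nm F XN = nm F (trN W) := by
  intro F hF
  refine ext_nm fun z => ⟨fun hz => ?_, fun hz => tr_sub W F z hz⟩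
  refine fc_sN (q := q) (A := fun F z => In F z (nm F (trN W))) (fun _ => RpP.mem _ _)
    (fun F hF s hs => ?_) hF hz
  obtain ⟨r, hr, hsr⟩ := exists_gen hF hs
  exact rn_trN.2 ⟨hs, h r hr s hsr⟩

/-- a member of an `ω`-cover -/
theorem pick {u : BSet (RO Cond)} {q : Cond} (h : FOm q u) {G : Finset ℝ}
    (hG : (↑G : Set ℝ) ⊆ q.A) : ∃ r ≤ q, ∃ W : Set ℝ, IsOpen W ∧ (↑G : Set ℝ) ⊆ W ∧
      FMem r W u ∧ ∃ s ∈ r.A, s ∉ W := by
  obtain ⟨y, hy⟩ := Fc.name (q := q) (A := fun F y => In F y (nm F u) ∧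
    Sub (In F) (nm F (fN G)) y) (fun y => (RpP.mem y u).and (rpSub _ y))
    (fun F hF => (h F hF).2.2 _ (fN_sub hG F hF) (finite_chk _ F))
  obtain ⟨r, hr, W, hW, hyW⟩ := exists_trace (u := y) (q := q)
    (fun F hF => (h F hF).1.1 _ (hy F hF).1)
  have hmem : FMem r W u := by
    intro F hF
    have e : nm F y = nm F (trN W) := hyW F hF
    rw [← e]
    exact (hy.mono hr F hF).1
  have hGW : (↑G : Set ℝ) ⊆ W := by
    intro g hg
    obtain ⟨F, hF⟩ := exists_gg r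
    have h1 := (hy.mono hr F hF).2 _ (rn_fN.2 (Finset.mem_coe.1 hg))
    have e : nm F y = nm F (trN W) := hyW F hF
    rw [e, rn_trN] at h1
    exact h1.2
  by_cases hcon : ∃ r1 ≤ r, ∃ s ∈ r1.A, s ∉ W
  · obtain ⟨r1, hr1, s, hs, hsW⟩ := hcon
    exact ⟨r1, hr1.trans hr, W, hW, hGW, hmem.mono hr1, s, hs, hsW⟩
  · push Not at hcon
    exfalso
    obtain ⟨F, hF⟩ := exists_gg r
    have e : nm F XN = nm F (trN W) := tr_full hcon F hF
    have h1 := hmem F hF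
    beta_reduce at h1
    rw [← e] at h1
    exact (h.mono hr F hF).2.1 h1

/-- two members of `ω`-covers in general position -/
theorem stage {u v : BSet (RO Cond)} {q : Cond} (hu : FOm q u) (hv : FOm q v) {G : Finset ℝ}
    (hG : (↑G : Set ℝ) ⊆ q.A) (k : ℕ) : ∃ r ≤ q, ∃ (A B : Set ℝ) (s t : ℝ),
      IsOpen A ∧ IsOpen B ∧ (↑G : Set ℝ) ⊆ A ∧ (↑G : Set ℝ) ⊆ B ∧ FMem r A u ∧ FMem r B v ∧
      s ∈ r.A ∧ s ∉ A ∧ t ∈ r.A ∧ t ∉ B ∧ Dns k (A ∪ B) := by
  have hk : (0 : ℝ) < 1 / (2 * ((k : ℝ) + 1)) := by positivity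
  obtain ⟨N, hN⟩ := H43.Omega.exists_net (k : ℝ) hk
  obtain ⟨r1, hr1, A, hA, hGA, hAu, s, hs, hsA⟩ := pick hu
    (G := G ∪ N.image (fun q : ℚ => (q : ℝ))) (by
      rw [Finset.coe_union, Finset.coe_image]
      refine union_subset hG ?_
      rintro _ ⟨x, _, rfl⟩
      exact q.hQ x)
  rw [Finset.coe_union, union_subset_iff] at hGA
  have hNA : ∀ x ∈ N, (x : ℝ) ∈ A := fun x hx => hGA.2 (by
    rw [Finset.coe_image]
    exact ⟨x, hx, rfl⟩)
  -- a common radius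
  have hrad : ∀ M : Finset ℚ, (∀ x ∈ M, (x : ℝ) ∈ A) →
      ∃ ρ > 0, ρ ≤ 1 / (2 * ((k : ℝ) + 1)) ∧ ∀ x ∈ M, Metric.ball (x : ℝ) ρ ⊆ A := by
    intro M
    induction M using Finset.induction_on with
    | empty => intro _; exact ⟨1 / (2 * ((k : ℝ) + 1)), hk, le_rfl, by simp⟩
    | insert x M _ ih =>
      intro hM
      obtain ⟨ρ, hρ, hρk, hρM⟩ := ih fun y hy => hM y (Finset.mem_insert_of_mem hy)
      obtain ⟨ρ', hρ', hρ'M⟩ := Metric.isOpen_iff.1 hA x (hM x (Finset.mem_insert_self x M))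
      refine ⟨min ρ ρ', lt_min hρ hρ', (min_le_left _ _).trans hρk, fun y hy => ?_⟩
      rcases Finset.mem_insert.1 hy with rfl | hy
      · exact (Metric.ball_subset_ball (min_le_right _ _)).trans hρ'M
      · exact (Metric.ball_subset_ball (min_le_left _ _)).trans (hρM y hy)
  obtain ⟨ρ, hρ, hρk, hρN⟩ := hrad N hNA
  obtain ⟨N', hN'⟩ := H43.Omega.exists_net ((k : ℝ) + 2) hρ
  obtain ⟨r2, hr2, B, hB, hGB, hBv, t, ht, htB⟩ := pick (hv.mono hr1)
    (G := G ∪ N'.image (fun q : ℚ => (q : ℝ))) (by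
      rw [Finset.coe_union, Finset.coe_image]
      refine union_subset (hG.trans hr1.1) ?_
      rintro _ ⟨x, _, rfl⟩
      exact r1.hQ x)
  rw [Finset.coe_union, union_subset_iff] at hGB
  have hNB : ∀ x ∈ N', (x : ℝ) ∈ B := fun x hx => hGB.2 (by
    rw [Finset.coe_image]
    exact ⟨x, hx, rfl⟩)
  refine ⟨r2, hr2.trans hr1, A, B, s, t, hA, hB, hGA.1, hGB.1, hAu.mono hr2, hBv, hr2.1 hs, hsA,
    ht, htB, fun w hw y₀ hy₀ => ?_⟩
  obtain ⟨x, hx, hxy⟩ := hN y₀ hy₀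
  have h1 : |w - (x : ℝ)| ≤ (k : ℝ) + 2 := by
    have h2 := abs_le.1 hy₀
    have h3 := abs_lt.1 hxy
    have h4 : 1 / (2 * ((k : ℝ) + 1)) ≤ 1 := by
      rw [div_le_one (by positivity)]
      have : (0 : ℝ) ≤ k := Nat.cast_nonneg k
      linarith
    rw [abs_le]
    constructor <;> linarith [hw.1, hw.2]
  obtain ⟨z, hz, hzy⟩ := hN' (w - x) h1
  refine ⟨w - z, ?_, Or.inl (hρN x hx ?_), Or.inr ?_⟩
  · have h2 : |w - z - x| < ρ := by
      rw [show w - (z : ℝ) - x = w - x - z by ring]; exact hzy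
    have h3 := abs_lt.1 h2
    have h4 := abs_lt.1 hxy
    have h5 : 1 / (2 * ((k : ℝ) + 1)) + 1 / (2 * ((k : ℝ) + 1)) = 1 / ((k : ℝ) + 1) := by
      field_simp; ring
    rw [abs_lt]
    constructor <;> linarith
  · rw [Metric.mem_ball, Real.dist_eq, show w - (z : ℝ) - x = w - x - z by ring]
    exact hzy
  · rw [show w - (w - (z : ℝ)) = z by ring]
    exact hNB z hz

/-- an enumeration of the points of a condition -/
theorem exists_en (q : Cond) : ∃ e : ℕ → ℝ, q.A = Set.range e :=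
  q.hA.exists_eq_range ⟨_, q.hQ 0⟩

/-- an enumeration of the points of a condition -/
noncomputable def en (q : Cond) : ℕ → ℝ := (exists_en q).choose

theorem range_en (q : Cond) : q.A = Set.range (en q) := (exists_en q).choose_spec

theorem en_mem (q : Cond) (i : ℕ) : en q i ∈ q.A := by
  rw [range_en q]
  exact ⟨i, rfl⟩

/-- the data of one stage -/
structure Stg where
  /-- the condition -/
  q : Cond
  /-- the first set -/
  A : Set ℝ
  /-- the second set -/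
  B : Set ℝ
  /-- a point outside the first set -/
  s : ℝ
  /-- a point outside the second set -/
  t : ℝ

/-- the whole construction -/
theorem exists_stages {p : Cond} {U : ℕ → BSet (RO Cond)} (hU : ∀ n, FOm p (U n)) :
    ∃ f : ℕ → Stg, ∀ k, (f k).q ≤ p ∧ (∀ j < k, (f k).q ≤ (f j).q) ∧ IsOpen (f k).A ∧
      IsOpen (f k).B ∧ FMem (f k).q (f k).A (U (2 * k)) ∧ FMem (f k).q (f k).B (U (2 * k + 1)) ∧
      (f k).s ∈ (f k).q.A ∧ (f k).s ∉ (f k).A ∧ (f k).t ∈ (f k).q.A ∧ (f k).t ∉ (f k).B ∧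
      Dns k ((f k).A ∪ (f k).B) ∧
      (∀ j < k, (f j).s ∈ (f k).A ∧ (f j).t ∈ (f k).A ∧ (f j).s ∈ (f k).B ∧
        (f j).t ∈ (f k).B) ∧
      ∀ j < k, ∀ i ≤ k, en (f j).q i ∈ (f k).A := by
  obtain ⟨f, hf⟩ := H43.Omega.exists_wf_seq (I := ℕ) (X := Stg)
    (fun k g a => (∀ j (hj : j < k), (g j hj).q ≤ p ∧
      (∀ i (hi : i < j), (g j hj).q ≤ (g i (hi.trans hj)).q) ∧
      (g j hj).s ∈ (g j hj).q.A ∧ (g j hj).t ∈ (g j hj).q.A) →
      a.q ≤ p ∧ (∀ j (hj : j < k), a.q ≤ (g j hj).q) ∧ IsOpen a.A ∧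
      IsOpen a.B ∧ FMem a.q a.A (U (2 * k)) ∧ FMem a.q a.B (U (2 * k + 1)) ∧
      a.s ∈ a.q.A ∧ a.s ∉ a.A ∧ a.t ∈ a.q.A ∧ a.t ∉ a.B ∧ Dns k (a.A ∪ a.B) ∧
      (∀ j (hj : j < k), (g j hj).s ∈ a.A ∧ (g j hj).t ∈ a.A ∧ (g j hj).s ∈ a.B ∧
        (g j hj).t ∈ a.B) ∧
      ∀ j (hj : j < k), ∀ i ≤ k, en (g j hj).q i ∈ a.A) (by
    intro k g
    by_cases hg : ∀ j (hj : j < k), (g j hj).q ≤ p ∧
      (∀ i (hi : i < j), (g j hj).q ≤ (g i (hi.trans hj)).q) ∧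
      (g j hj).s ∈ (g j hj).q.A ∧ (g j hj).t ∈ (g j hj).q.A
    · obtain ⟨q0, hq0, hq0'⟩ : ∃ q0 ≤ p, ∀ j (hj : j < k), q0 ≤ (g j hj).q := by
        cases k with
        | zero => exact ⟨p, le_rfl, fun j hj => absurd hj (Nat.not_lt_zero j)⟩
        | succ m =>
          refine ⟨(g m (Nat.lt_succ_self m)).q, (hg m _).1, fun j hj => ?_⟩
          rcases (Nat.lt_succ_iff.1 hj).lt_or_eq with h | h
          · exact (hg m _).2.1 j h
          · subst h; exact le_rfl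
      let S : Set ℝ := ⋃ j : Set.Iio k, ({(g j.1 j.2).s, (g j.1 j.2).t} ∪
        (en (g j.1 j.2).q) '' Set.Iic k)
      have hS : S.Finite := Set.finite_iUnion fun j => (Set.toFinite _).union
        ((Set.finite_Iic k).image _)
      have hSA : S ⊆ q0.A := by
        refine iUnion_subset fun j => union_subset ?_ ?_
        · rintro x (rfl | rfl)
          · exact (hq0' j.1 j.2).1 (hg j.1 j.2).2.2.1
          · exact (hq0' j.1 j.2).1 (hg j.1 j.2).2.2.2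
        · rintro _ ⟨i, _, rfl⟩
          exact (hq0' j.1 j.2).1 (en_mem _ i)
      obtain ⟨r, hr, A, B, s, t, h1, h2, h3, h4, h5, h6, h7, h8, h9, h10, h11⟩ :=
        stage ((hU (2 * k)).mono hq0) ((hU (2 * k + 1)).mono hq0) (G := hS.toFinset)
          (by rw [Set.Finite.coe_toFinset]; exact hSA) k
      rw [Set.Finite.coe_toFinset] at h3 h4
      refine ⟨⟨r, A, B, s, t⟩, fun _ => ⟨hr.trans hq0, fun j hj => hr.trans (hq0' j hj), h1, h2,
        h5, h6, h7, h8, h9, h10, h11, fun j hj => ⟨?_, ?_, ?_, ?_⟩, fun j hj i hi => ?_⟩⟩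
      · exact h3 (mem_iUnion.2 ⟨⟨j, hj⟩, Or.inl (Or.inl rfl)⟩)
      · exact h3 (mem_iUnion.2 ⟨⟨j, hj⟩, Or.inl (Or.inr rfl)⟩)
      · exact h4 (mem_iUnion.2 ⟨⟨j, hj⟩, Or.inl (Or.inl rfl)⟩)
      · exact h4 (mem_iUnion.2 ⟨⟨j, hj⟩, Or.inl (Or.inr rfl)⟩)
      · exact h3 (mem_iUnion.2 ⟨⟨j, hj⟩, Or.inr ⟨i, hi, rfl⟩⟩)
    · exact ⟨⟨p, ∅, ∅, 0, 0⟩, fun h => absurd h hg⟩)
  refine ⟨f, ?_⟩
  have key : ∀ k, (f k).q ≤ p ∧ (∀ i (_ : i < k), (f k).q ≤ (f i).q) ∧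
      (f k).s ∈ (f k).q.A ∧ (f k).t ∈ (f k).q.A := by
    intro k
    induction k using Nat.strong_induction_on with
    | _ k ih =>
      have h := hf k fun j hj => ih j hj
      exact ⟨h.1, h.2.1, h.2.2.2.2.2.2.1, h.2.2.2.2.2.2.2.2.1⟩
  exact fun k => hf k fun j _ => key j

/-- the selection -/
theorem exists_selection {p : Cond} {U : ℕ → BSet (RO Cond)} (hU : ∀ n, FOm p (U n)) :
    ∃ q ≤ p, ∃ W : ℕ → Bool → Set ℝ, (∀ k i, IsOpen (W k i)) ∧
      (∀ k, FMem q (W k false) (U (2 * k))) ∧ (∀ k, FMem q (W k true) (U (2 * k + 1))) ∧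
      (∀ j k, j ≠ k → ∀ i i', ∃ d ∈ q.A, ¬ (d ∈ W j i ↔ d ∈ W k i')) ∧
      ∀ r ≤ q, ∀ G : Finset ℝ, (↑G : Set ℝ) ⊆ r.A → ∃ k, ∀ x ∈ G, ∃ i, x ∈ W k i := by
  obtain ⟨f, hf⟩ := exists_stages hU
  have hanti : ∀ m n, m ≤ n → (f n).q ≤ (f m).q := by
    intro m n hmn
    rcases hmn.lt_or_eq with h | h
    · exact (hf n).2.1 m h
    · rw [h]
  let q0 : Cond := limC (fun k => (f k).q) hanti
  have hq0 : ∀ k, q0 ≤ (f k).q := limC_le (fun k => (f k).q) hanti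
  let V : ℕ → Set ℝ := fun k => (f k).A ∪ (f k).B
  have hVo : ∀ k, IsOpen (V k) := fun k => (hf k).2.2.1.union (hf k).2.2.2.1
  have hVd : ∀ k, Dns k (V k) := fun k => (hf k).2.2.2.2.2.2.2.2.2.2.1
  let q : Cond := q0.addPromise V hVo hVd
  have hq : q ≤ q0 := q0.addPromise_le V hVo hVd
  have hqA : q.A = ⋃ k, (f k).q.A := rfl
  have hsep : ∀ j k, j < k → ∀ i i' : Bool, ∃ d ∈ q.A,
      (d ∉ cond i (f j).B (f j).A) ∧ d ∈ cond i' (f k).B (f k).A := by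
    intro j k hjk i i'
    have h := (hf k).2.2.2.2.2.2.2.2.2.2.2.1 j hjk
    have hj := (hf j).2.2.2.2.2.2
    cases i
    · refine ⟨(f j).s, (hq.trans (hq0 j)).1 hj.1, hj.2.1, ?_⟩
      cases i'
      · exact h.1
      · exact h.2.2.1
    · refine ⟨(f j).t, (hq.trans (hq0 j)).1 hj.2.2.1, hj.2.2.2.1, ?_⟩
      cases i'
      · exact h.2.1
      · exact h.2.2.2
  refine ⟨q, hq.trans ((hq0 0).trans (hf 0).1), fun k i => cond i (f k).B (f k).A, ?_, ?_, ?_,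
    ?_, ?_⟩
  · intro k i
    cases i
    · exact (hf k).2.2.1
    · exact (hf k).2.2.2.1
  · exact fun k => (hf k).2.2.2.2.1.mono (hq.trans (hq0 k))
  · exact fun k => (hf k).2.2.2.2.2.1.mono (hq.trans (hq0 k))
  · intro j k hjk i i'
    rcases lt_or_gt_of_ne hjk with h | h
    · obtain ⟨d, hd, h1, h2⟩ := hsep j k h i i'
      exact ⟨d, hd, fun e => h1 (e.2 h2)⟩
    · obtain ⟨d, hd, h1, h2⟩ := hsep k j h i' i
      exact ⟨d, hd, fun e => h1 (e.1 h2)⟩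
  · intro r hr G hG
    -- the points of `q`
    have h1 : ∃ N, ∀ x ∈ G, x ∈ q.A → ∀ k, N ≤ k → x ∈ (f k).A := by
      have h2 : ∀ x, ∃ N, x ∈ q.A → ∀ k, N ≤ k → x ∈ (f k).A := by
        intro x
        by_cases hx : x ∈ q.A
        · rw [hqA] at hx
          obtain ⟨j, hj⟩ := mem_iUnion.1 hx
          rw [range_en] at hj
          obtain ⟨i, rfl⟩ := hj
          refine ⟨max (j + 1) i, fun _ k hk => ?_⟩
          exact (hf k).2.2.2.2.2.2.2.2.2.2.2.2 j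
            (lt_of_lt_of_le (Nat.lt_succ_self j) ((le_max_left _ _).trans hk)) i
            ((le_max_right _ _).trans hk)
        · exact ⟨0, fun h => absurd h hx⟩
      choose N hN using h2
      exact ⟨G.sup N, fun x hx hxq k hk => hN x hxq k ((Finset.le_sup hx).trans hk)⟩
    obtain ⟨N, hN⟩ := h1
    have hmem : (V, q0.A) ∈ r.S := hr.2 (Or.inl rfl)
    obtain ⟨k, hk, hkF⟩ := r.kept _ hmem (G.filter (· ∉ q.A)) (by
      intro x hx
      rw [Finset.coe_filter] at hx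
      exact ⟨hG hx.1, hx.2⟩) N
    refine ⟨k, fun x hx => ?_⟩
    by_cases hxq : x ∈ q.A
    · exact ⟨false, hN x hx hxq k hk⟩
    · have h2 : x ∈ V k := hkF (by rw [Finset.coe_filter]; exact ⟨hx, hxq⟩)
      rcases h2 with h2 | h2
      · exact ⟨false, h2⟩
      · exact ⟨true, h2⟩

end Pool.Agent.OG45
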