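import Pool.Agent.OG45.Poset

/-!
# The generic set of reals and its open subsets
-/

namespace Pool.Agent.OG45

open Classical Set Pool.Agent Pool.Agent.LadderTree Pool.Agent.Forcing Pool.Agent.MAx
open Pool.Agent.BVM (BSet UF eqv memv chk Congr le_of_uf Disc OPair FunOn op on onT)

section

variable {P : Type} [Preorder P]

/-- elements of check sets, below a condition -/
theorem fc_chk {X : Type} {x : X → BSet (RO P)} {q : P} {A : ∀ F : GG P, Md F → Prop}
    (hA : ∀ y, RpP fun F => A F (nm F y))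
    (h : ∀ F : GG P, F.1.U (pt q) → ∀ a, A F (nm F (x a))) {F : GG P} (hF : F.1.U (pt q))
    {y : Md F} (hy : In F y (nm F (chk x))) : A F y :=
  chk_all x (RpP.val (pt q)) hA (fun F hF a => h F hF a) F hF y hy

/-- a set of real numbers, given by values -/
noncomputable def sN (b : ℝ → RO P) : BSet (RO P) := .mk ℝ rn b

theorem rn_sN {b : ℝ → RO P} {F : GG P} {r : ℝ} :
    In F (nm F (rn r)) (nm F (sN b)) ↔ F.1.U (b r) := by
  rw [In_nm]
  have : memv (rn r) (sN b) = b r := by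
    rw [sN, BVM.memv_mk]
    refine le_antisymm (iSup_le fun a => ?_) (le_iSup_of_le r ?_)
    · rw [disc_rn]
      by_cases h : r = a
      · rw [h]; exact inf_le_left
      · rw [tv_false h, inf_bot_eq]; exact bot_le
    · rw [BVM.eqv_refl, inf_top_eq]
  rw [this]

theorem sN_sub {b : ℝ → RO P} {F : GG P} {x : Md F} (h : In F x (nm F (sN b))) :
    In F x (nm F (KR (RO P)).R) := by
  obtain ⟨x, rfl⟩ := exists_nm x
  rw [In_nm, sN, BVM.memv_mk] at h
  show F.1.U (memv x (chk rn))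
  rw [BVM.memv_chk]
  exact F.1.mono (iSup_mono fun a => inf_le_right) h

/-- elements of sets of real numbers, below a condition -/
theorem fc_sN {b : ℝ → RO P} {q : P} {A : ∀ F : GG P, Md F → Prop}
    (hA : ∀ y, RpP fun F => A F (nm F y))
    (h : ∀ F : GG P, F.1.U (pt q) → ∀ r, F.1.U (b r) → A F (nm F (rn r))) {F : GG P}
    (hF : F.1.U (pt q)) {y : Md F} (hy : In F y (nm F (sN b))) : A F y :=
  fc_chk (A := fun F y => In F y (nm F (sN b)) → A F y) (fun y => (RpP.mem _ _).imp (hA y))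
    (fun F hF r hr => h F hF r (rn_sN.1 hr)) hF (sN_sub hy) hy

theorem ext_nm {F : GG P} {x y : Md F} (h : ∀ z, In F z x ↔ In F z y) : x = y :=
  (BVM.zfc F.1).ext x y h

/-- finite sets -/
theorem finite_chk {ι : Type} [_root_.Finite ι] (x : ι → BSet (RO P)) (F : GG P) :
    OG45.Finite (In F) (nm F (onT ℕ)) (nm F (chk x)) := by
  obtain ⟨n, ⟨e⟩⟩ := Finite.exists_equiv_fin ι
  refine ⟨nm F (on n), BVM.E_onT n F.1, ?_⟩
  let g : Set.Iio n → ι := fun i => e.symm ⟨i.1, i.2⟩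
  have hd : Disc (fun i : Set.Iio n => (on i.1 : BSet (RO P))) :=
    BVM.disc_on.comp Subtype.val_injective
  have hf := funOn_fnN (b := (⊤ : RO P)) (x := fun i : Set.Iio n => (on i.1 : BSet (RO P)))
    (y := fun i => x (g i)) hd F
  refine ⟨nm F (fnN (fun i : Set.Iio n => on i.1) fun i => x (g i)), ?_, ?_⟩
  · intro u v v' h h'
    have hu : In F u (nm F (chk fun i : Set.Iio n => on i.1)) := by
      obtain ⟨z, hz, hzf⟩ := h
      obtain ⟨u', v'', hu', hz'⟩ := hf.1 z hzf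
      rw [(hz.inj hz').1]
      exact hu'
    obtain ⟨y, _, hy'⟩ := hf.2 u hu
    rw [hy' v h, hy' v' h']
  · intro y hy
    refine all_chk (b := (⊤ : RO P)) (A := fun F y => ∃ z, In F z (nm F (on n)) ∧
      BVM.Rel (In F) (nm F (fnN (fun i : Set.Iio n => on i.1) fun i => x (g i))) z y)
      (fun y => RpP.ex fun z => (RpP.mem z (on n)).and (RpP.rel _ z y)) (fun F i => ?_) F y hy
    refine ⟨nm F (on (e i).1), BVM.E_on (e i).2 F.1, ?_⟩
    refine (rel_fnN hd F (⟨(e i).1, (e i).2⟩ : Set.Iio n) _).2 ?_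
    show nm F (x i) = nm F (x (e.symm (e i)))
    rw [Equiv.symm_apply_apply]

/-- the name of a finite set of real numbers -/
noncomputable def fN (G : Finset ℝ) : BSet (RO P) := chk fun g : G => rn g.1

theorem rn_fN {G : Finset ℝ} {F : GG P} {r : ℝ} :
    In F (nm F (rn r)) (nm F (fN G)) ↔ r ∈ G := by
  rw [In_nm, fN, BVM.memv_chk]
  have h : ∀ g : G, eqv (rn r) (rn g.1 : BSet (RO P)) = tv (r = g.1) := fun g => disc_rn _ _
  simp only [h, BVM.tv_iSup]
  rw [F.1.tv_iff]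
  constructor
  · rintro ⟨g, rfl⟩; exact g.2
  · exact fun h => ⟨⟨r, h⟩, rfl⟩

end

/-- the value of `r ∈ X` -/
noncomputable def gen (r : ℝ) : RO Cond := below {p | r ∈ p.A}

theorem forc_gen {p : Cond} {r : ℝ} (h : r ∈ p.A) : Forc p (gen r) :=
  forc_below.2 fun q hq => ⟨q, le_rfl, q, hq.1 h, le_rfl⟩

theorem gg_gen {p : Cond} {r : ℝ} (h : r ∈ p.A) {F : GG Cond} (hF : F.1.U (pt p)) :
    F.1.U (gen r) := F.1.mono (pt_le_iff.2 (forc_gen h)) hF

theorem exists_gen {p : Cond} {r : ℝ} {F : GG Cond} (hF : F.1.U (pt p)) (h : F.1.U (gen r)) :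
    ∃ q ≤ p, r ∈ q.A := by
  by_contra hcon
  push Not at hcon
  have h1 : pt p ⊓ gen r ≤ ⊥ := by
    rw [forc_le_iff]
    intro q hq
    rw [forc_inf, forc_pt] at hq
    obtain ⟨r1, hr1, hr2⟩ := hq.1 q le_rfl
    obtain ⟨r3, hr3, s, hs, hrs⟩ := forc_below.1 hq.2 r1 hr1
    exact absurd (hrs.1 hs) (hcon r3 (hr3.trans hr2))
  exact F.1.bot (F.1.mono h1 (F.1.inf hF h))

/-- the name of the generic set of reals -/
noncomputable def XN : BSet (RO Cond) := sN gen

/-- the name of the trace of `W` on the generic set -/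
noncomputable def trN (W : Set ℝ) : BSet (RO Cond) := sN fun r => gen r ⊓ tv (r ∈ W)

theorem rn_XN {F : GG Cond} {r : ℝ} : In F (nm F (rn r)) (nm F XN) ↔ F.1.U (gen r) := rn_sN

theorem rn_trN {F : GG Cond} {r : ℝ} {W : Set ℝ} :
    In F (nm F (rn r)) (nm F (trN W)) ↔ F.1.U (gen r) ∧ r ∈ W := by
  refine rn_sN.trans ?_
  show F.1.U (gen r ⊓ tv (r ∈ W)) ↔ _
  rw [F.1.inf_iff, F.1.tv_iff]

theorem gg_top (F : GG Cond) : ∃ p, p = (⊤ : RO Cond) ∧ F.1.U p := ⟨⊤, rfl, F.1.top⟩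

/-- elements of sets of real numbers -/
theorem all_sN {P : Type} [Preorder P] {b : ℝ → RO P} {A : ∀ F : GG P, Md F → Prop}
    (hA : ∀ y, RpP fun F => A F (nm F y))
    (h : ∀ F : GG P, ∀ r, F.1.U (b r) → A F (nm F (rn r))) {F : GG P}
    {y : Md F} (hy : In F y (nm F (sN b))) : A F y :=
  all_real (A := fun F y => In F y (nm F (sN b)) → A F y) (fun y => (RpP.mem _ _).imp (hA y))
    (fun F r hr => h F r (rn_sN.1 hr)) F y (sN_sub hy) hy

theorem tr_sub (W : Set ℝ) (F : GG Cond) : Sub (In F) (nm F (trN W)) (nm F XN) := by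
  intro x hx
  refine all_sN (A := fun F x => In F x (nm F XN)) (fun _ => RpP.mem _ _) (fun F r hr => ?_) hx
  rw [F.1.inf_iff] at hr
  exact rn_XN.2 hr.1

/-- traces of open sets are open -/
theorem openIn_tr {W : Set ℝ} (hW : IsOpen W) (F : GG Cond) :
    OpenIn (In F) (nmK F (KR (RO Cond))) (nm F XN) (nm F (trN W)) := by
  refine ⟨tr_sub W F, fun x hx => ?_⟩
  refine all_sN (A := fun F x => ∃ a b, BVM.Rel (In F) (nm F (KR (RO Cond)).lt) a x ∧
    BVM.Rel (In F) (nm F (KR (RO Cond)).lt) x b ∧ ∀ y, In F y (nm F XN) →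
      BVM.Rel (In F) (nm F (KR (RO Cond)).lt) a y →
      BVM.Rel (In F) (nm F (KR (RO Cond)).lt) y b → In F y (nm F (trN W)))
    (fun x => ?_) (fun F r hr => ?_) hx
  · repeat' (first
      | exact RpP.rel _ _ _ | exact RpP.mem _ _ | refine RpP.and ?_ ?_
      | refine RpP.ex fun _ => ?_ | refine RpP.all fun _ => ?_
      | refine RpP.imp ?_ ?_)
  · rw [F.1.inf_iff, F.1.tv_iff] at hr
    obtain ⟨ε, hε, hεW⟩ := Metric.isOpen_iff.1 hW r hr.2
    refine ⟨nm F (rn (r - ε)), nm F (rn (r + ε)), rel_lt.2 (by linarith),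
      rel_lt.2 (by linarith), fun y hy => ?_⟩
    refine all_sN (A := fun F y => BVM.Rel (In F) (nm F (KR (RO Cond)).lt) (nm F (rn (r - ε))) y →
      BVM.Rel (In F) (nm F (KR (RO Cond)).lt) y (nm F (rn (r + ε))) → In F y (nm F (trN W)))
      (fun y => (RpP.rel _ _ _).imp ((RpP.rel _ _ _).imp (RpP.mem _ _)))
      (fun F s hs h1 h2 => ?_) hy
    rw [rel_lt] at h1 h2
    refine rn_trN.2 ⟨hs, hεW ?_⟩
    rw [Metric.mem_ball, Real.dist_eq, abs_lt]
    constructor <;> linarith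

/-- open subsets of the generic set are traces of open sets of the ground model -/
theorem exists_trace {u : BSet (RO Cond)} {q : Cond}
    (h : Fc q fun F => OpenIn (In F) (nmK F (KR (RO Cond))) (nm F XN) (nm F u)) :
    ∃ r ≤ q, ∃ W : Set ℝ, IsOpen W ∧ Fc r fun F => nm F u = nm F (trN W) := by
  have hRp : ∀ x y : BSet (RO Cond), RpP fun F : GG Cond => ∀ z, In F z (nm F XN) →
      BVM.Rel (In F) (nm F (KR (RO Cond)).lt) (nm F x) z →
      BVM.Rel (In F) (nm F (KR (RO Cond)).lt) z (nm F y) → In F z (nm F u) := fun x y =>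
    RpP.all fun _ => (RpP.mem _ _).imp ((RpP.rel _ _ _).imp ((RpP.rel _ _ _).imp (RpP.mem _ _)))
  obtain ⟨r, hr, T, hT⟩ := decide_all sigma_cond q (ι := ℚ × ℚ) (A := fun p F =>
    ∀ z, In F z (nm F XN) → BVM.Rel (In F) (nm F (KR (RO Cond)).lt) (nm F (rn p.1)) z →
      BVM.Rel (In F) (nm F (KR (RO Cond)).lt) z (nm F (rn p.2)) → In F z (nm F u))
    (fun p => hRp _ _)
  have hr' := h.mono hr
  refine ⟨r, hr, ⋃ p ∈ T, Ioo (p.1 : ℝ) p.2, isOpen_biUnion fun p _ => isOpen_Ioo, ?_⟩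
  have h1 : Fc r fun F => ∀ z, In F z (nm F u) →
      In F z (nm F (trN (⋃ p ∈ T, Ioo (p.1 : ℝ) p.2))) := by
    refine Fc.all fun z => Fc.imp (RpP.mem _ _) (RpP.mem _ _) fun r1 hr1 hz => ?_
    refine Fc.dense (RpP.mem _ _) fun r2 hr2 => ?_
    have hz2 := hz.mono hr2
    have ho2 := hr'.mono (hr2.trans hr1)
    -- the point
    obtain ⟨r3, hr3, d, hd⟩ := Fc.chk (x := rn) (y := z) (q := r2)
      (fun F hF => sN_sub ((ho2 F hF).1 _ (hz2 F hF)))
    -- the interval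
    obtain ⟨a, ha⟩ := Fc.name (q := r3) (A := fun F a => ∃ b,
      BVM.Rel (In F) (nm F (KR (RO Cond)).lt) a (nm F z) ∧
      BVM.Rel (In F) (nm F (KR (RO Cond)).lt) (nm F z) b ∧ ∀ y, In F y (nm F XN) →
      BVM.Rel (In F) (nm F (KR (RO Cond)).lt) a y →
      BVM.Rel (In F) (nm F (KR (RO Cond)).lt) y b → In F y (nm F u))
      (fun a => RpP.ex fun b => (RpP.rel _ _ _).and ((RpP.rel _ _ _).and (hRp a b)))
      (fun F hF => (ho2.mono hr3 F hF).2 _ (hz2.mono hr3 F hF))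
    obtain ⟨b, hb⟩ := Fc.name (q := r3) (A := fun F b =>
      BVM.Rel (In F) (nm F (KR (RO Cond)).lt) (nm F a) (nm F z) ∧
      BVM.Rel (In F) (nm F (KR (RO Cond)).lt) (nm F z) b ∧ ∀ y, In F y (nm F XN) →
      BVM.Rel (In F) (nm F (KR (RO Cond)).lt) (nm F a) y →
      BVM.Rel (In F) (nm F (KR (RO Cond)).lt) y b → In F y (nm F u))
      (fun b => (RpP.rel _ _ _).and ((RpP.rel _ _ _).and (hRp a b))) ha
    obtain ⟨r4, hr4, α, hα⟩ := Fc.chk (x := rn) (y := a) (q := r3)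
      (fun F hF => (lt_dom (hb F hF).1).1)
    obtain ⟨r5, hr5, β, hβ⟩ := Fc.chk (x := rn) (y := b) (q := r4)
      (fun F hF => (lt_dom (hb.mono hr4 F hF).2.1).2)
    have hd5 := hd.mono (hr5.trans hr4)
    have hα5 := hα.mono hr5
    have hb5 := hb.mono (hr5.trans hr4)
    obtain ⟨F, hF⟩ := exists_gg r5
    have h2 := hb5 F hF
    beta_reduce at h2
    have e1 : nm F z = nm F (rn d) := hd5 F hF
    have e2 : nm F a = nm F (rn α) := hα5 F hF
    have e3 : nm F b = nm F (rn β) := hβ F hF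
    rw [e1, e2, e3, rel_lt, rel_lt] at h2
    obtain ⟨p, hp1, hp2⟩ := exists_rat_btwn h2.1
    obtain ⟨p', hp1', hp2'⟩ := exists_rat_btwn h2.2.1
    have hT' : (p, p') ∈ T := by
      refine (hT (p, p') F (F.1.mono (pt_mono (hr5.trans (hr4.trans (hr3.trans
        (hr2.trans hr1))))) hF)).1 fun y hy h3 h4 => h2.2.2 y hy ?_ ?_
      · exact f_trans F _ _ _ (rel_lt.2 hp1) h3
      · exact f_trans F _ _ _ h4 (rel_lt.2 hp2')
    refine ⟨r5, hr5.trans (hr4.trans hr3), fun F hF => ?_⟩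
    have e1 : nm F z = nm F (rn d) := hd5 F hF
    have h3 : In F (nm F z) (nm F XN) :=
      (ho2.mono (hr5.trans (hr4.trans hr3)) F hF).1 _ (hz2.mono (hr5.trans (hr4.trans hr3)) F hF)
    show In F (nm F z) _
    rw [e1] at h3 ⊢
    refine rn_trN.2 ⟨rn_XN.1 h3, mem_biUnion hT' ⟨hp2, hp1'⟩⟩
  have h2 : Fc r fun F => ∀ z, In F z (nm F (trN (⋃ p ∈ T, Ioo (p.1 : ℝ) p.2))) →
      In F z (nm F u) := by
    intro F hF z hz
    refine fc_sN (q := r) (A := fun F z => In F z (nm F u)) (fun _ => RpP.mem _ _)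
      (fun F hF d hd => ?_) hF hz
    rw [F.1.inf_iff, F.1.tv_iff, mem_iUnion₂] at hd
    obtain ⟨hd1, p, hp, hd2⟩ := hd
    exact (hT p F hF).2 hp _ (rn_XN.2 hd1) (rel_lt.2 hd2.1) (rel_lt.2 hd2.2)
  exact fun F hF => ext_nm fun z => ⟨h1 F hF z, h2 F hF z⟩

/-- finite subsets of the generic set are covered by finite sets of the ground model -/
theorem exists_finite {a : BSet (RO Cond)} {q : Cond}
    (h1 : Fc q fun F => Sub (In F) (nm F a) (nm F XN))
    (h2 : Fc q fun F => OG45.Finite (In F) (nm F (onT ℕ)) (nm F a)) :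
    ∃ r ≤ q, ∃ G : Finset ℝ, (↑G : Set ℝ) ⊆ r.A ∧
      Fc r fun F => ∀ x, In F x (nm F a) → In F x (nm F (fN G)) := by
  obtain ⟨n, hn⟩ := Fc.name (q := q) (A := fun F n => In F n (nm F (onT ℕ)) ∧
    BVM.CardLE (In F) (nm F a) n) (fun _ => (RpP.mem _ _).and (rpCardLE _ _)) h2
  obtain ⟨q1, hq1, m, hm⟩ := Fc.chk (x := on) (y := n) (q := q) (fun F hF => (hn F hF).1)
  have hRp : ∀ f n : BSet (RO Cond), RpP fun F : GG Cond =>
      (∀ x y y', BVM.Rel (In F) (nm F f) x y → BVM.Rel (In F) (nm F f) x y' → y' = y) ∧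
      ∀ y, In F y (nm F a) → ∃ x, In F x (nm F n) ∧ BVM.Rel (In F) (nm F f) x y := by
    intro f n
    repeat' (first
      | exact RpP.rel _ _ _ | exact RpP.mem _ _ | exact RpP.eq _ _ | refine RpP.and ?_ ?_
      | refine RpP.ex fun _ => ?_ | refine RpP.all fun _ => ?_
      | refine RpP.imp ?_ ?_)
  obtain ⟨f, hf⟩ := Fc.name (q := q1) (A := fun F f =>
    (∀ x y y', BVM.Rel (In F) f x y → BVM.Rel (In F) f x y' → y' = y) ∧
      ∀ y, In F y (nm F a) → ∃ x, In F x (nm F (on m)) ∧ BVM.Rel (In F) f x y)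
    (fun f => hRp f (on m)) (fun F hF => by
      have h3 := (hn.mono hq1 F hF).2
      have e : nm F n = nm F (on m) := hm F hF
      rw [e] at h3
      exact h3)
  have ha1 := h1.mono hq1
  obtain ⟨q2, hq2, hΦ⟩ := fuse sigma_cond (p := q1)
    (Φ := fun i r => (Fc r fun F => ∀ y, In F y (nm F a) →
      ¬ BVM.Rel (In F) (nm F f) (nm F (on i)) y) ∨ ∃ d ∈ r.A, Fc r fun F => ∀ y,
        In F y (nm F a) → BVM.Rel (In F) (nm F f) (nm F (on i)) y → y = nm F (rn d))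
    (fun i r s hs h => h.imp (fun h => h.mono hs) fun ⟨d, hd, h⟩ => ⟨d, hs.1 hd, h.mono hs⟩)
    (fun i r hr => by
      have hS : RpP fun F : GG Cond => ∃ y, In F y (nm F a) ∧
          BVM.Rel (In F) (nm F f) (nm F (on i)) y :=
        RpP.ex fun y => (RpP.mem y a).and (RpP.rel f _ y)
      obtain ⟨s, hs, h | h⟩ := fc_decide hS r
      · obtain ⟨y, hy⟩ := Fc.name (A := fun F y => In F y (nm F a) ∧
          BVM.Rel (In F) (nm F f) (nm F (on i)) y)
          (fun y => (RpP.mem y a).and (RpP.rel f _ y)) h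
        obtain ⟨s1, hs1, d, hd⟩ := Fc.chk (x := rn) (y := y) (q := s)
          (fun F hF => sN_sub (ha1.mono (hs.trans hr) F hF _ (hy F hF).1))
        obtain ⟨F, hF⟩ := exists_gg s1
        have h3 : In F (nm F (rn d)) (nm F XN) := by
          have e : nm F y = nm F (rn d) := hd F hF
          rw [← e]
          exact ha1.mono (hs1.trans (hs.trans hr)) F hF _ (hy.mono hs1 F hF).1
        obtain ⟨s2, hs2, hds⟩ := exists_gen hF (rn_XN.1 h3)
        refine ⟨s2, hs2.trans (hs1.trans hs), Or.inr ⟨d, hds, fun F hF y' hy' hr' => ?_⟩⟩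
        have e : nm F y = nm F (rn d) := hd.mono hs2 F hF
        rw [← e]
        exact (hf.mono (hs2.trans (hs1.trans (hs.trans hr))) F hF).1 _ _ _
          (hy.mono (hs2.trans hs1) F hF).2 hr'
      · refine ⟨s, hs, Or.inl fun F hF y hy hr' => h F hF ⟨y, hy, hr'⟩⟩)
  have hΦ' : ∀ i : ℕ, ∃ d, (d ∈ q2.A ∧ Fc q2 fun F => ∀ y,
      In F y (nm F a) → BVM.Rel (In F) (nm F f) (nm F (on i)) y → y = nm F (rn d)) ∨
      (Fc q2 fun F => ∀ y, In F y (nm F a) → ¬ BVM.Rel (In F) (nm F f) (nm F (on i)) y) := by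
    intro i
    rcases hΦ i with h | ⟨d, hd, h⟩
    · exact ⟨0, Or.inr h⟩
    · exact ⟨d, Or.inl ⟨hd, h⟩⟩
  choose d hd using hΦ'
  refine ⟨q2, hq2.trans hq1, ((Finset.range m).image d).filter (· ∈ q2.A), ?_, fun F hF x hx => ?_⟩
  · intro x hx
    rw [Finset.coe_filter] at hx
    exact hx.2
  · obtain ⟨i, hi, hr⟩ := (hf.mono hq2 F hF).2 x hx
    rw [BVM.on_def] at hi
    refine fc_chk (q := q2) (A := fun F i => ∀ x, In F x (nm F a) →
      BVM.Rel (In F) (nm F f) i x → In F x (nm F (fN (((Finset.range m).image d).filter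
        (· ∈ q2.A))))) (fun _ => RpP.all fun _ => (RpP.mem _ _).imp ((RpP.rel _ _ _).imp
        (RpP.mem _ _))) (fun F hF i x hx hr => ?_) hF hi x hx hr
    rcases hd i.1 with ⟨h3, h4⟩ | h3
    · rw [h4 F hF x hx hr, rn_fN, Finset.mem_filter, Finset.mem_image]
      exact ⟨⟨i.1, Finset.mem_range.2 i.2, rfl⟩, h3⟩
    · exact absurd hr (h3 F hF x hx)

theorem fN_sub {G : Finset ℝ} {q : Cond} (h : (↑G : Set ℝ) ⊆ q.A) :
    Fc q fun F => Sub (In F) (nm F (fN G)) (nm F XN) := by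
  intro F hF x hx
  exact fc_chk (q := q) (A := fun F x => In F x (nm F XN)) (fun _ => RpP.mem _ _)
    (fun F hF g => rn_XN.2 (gg_gen (h g.2) hF)) hF hx

end Pool.Agent.OG45
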